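import Pool.Agent.Lib.MP_d9740f_co.MM.Star

namespace Pool.Agent.Lib.MP_d9740f_co.MM

open Finset

variable {V : Type} [Fintype V] [DecidableEq V] {p : ℕ} {F : Finset (Finset V)}

private theorem avg_one (hV : Fintype.card V = 2 * p + 1) (hp : 2 ≤ p) (hF : ∀ Q ∈ F, Q.card = p) {L : ℕ} {a : ℕ → Finset V}
    (hL : Odd L) (hd : ∀ i < L, Disjoint (a i) (a (i + 1))) (hcl : a L = a 0) (hc : ∀ i ≤ L, Cell p F (a i)ᶜ) (v : V) :
    p * (p + 1) ≤ (F.filter fun Q => v ∉ Q).card := by
  classical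
  have hV' : Fintype.card {x : V // x ≠ v} = 2 * p := by
    rw [Fintype.card_subtype, Finset.filter_ne', Finset.card_erase_of_mem (Finset.mem_univ v), Finset.card_univ, hV]
    rfl
  have h := star (V := {x : V // x ≠ v}) (p := p)
    (F := Finset.univ.filter fun Q' : Finset {x : V // x ≠ v} => Q'.map (Function.Embedding.subtype _) ∈ F)
    (L := L) (a := fun i => (a i).subtype (· ≠ v)) hV' hp ?_ hL ?_ ?_ ?_
  · refine h.trans (Finset.card_le_card_of_injOn (fun Q' => Q'.map (Function.Embedding.subtype _)) ?_ ?_)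
    · intro Q' hQ'
      have h1 : Q'.map (Function.Embedding.subtype _) ∈ F := by
        have h2 := Finset.mem_coe.mp hQ'
        exact (Finset.mem_filter.mp h2).2
      refine Finset.mem_coe.mpr (Finset.mem_filter.mpr ⟨h1, ?_⟩)
      intro h3
      obtain ⟨x, _, hx⟩ := Finset.mem_map.mp h3
      exact x.2 hx
    · intro Q' _ Q'' _ h1
      exact Finset.map_injective _ h1
  · intro Q' hQ'
    have h1 := hF _ (Finset.mem_filter.mp hQ').2
    rwa [Finset.card_map] at h1
  · intro i hi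
    rw [Finset.disjoint_left]
    intro x hx hx'
    exact Finset.disjoint_left.mp (hd i hi) (Finset.mem_subtype.mp hx) (Finset.mem_subtype.mp hx')
  · exact congrArg (Finset.subtype (· ≠ v)) hcl
  · intro i hi P hP hPc
    refine Finset.mem_filter.mpr ⟨Finset.mem_univ _, hc i hi _ ?_ ?_⟩
    · intro x hx
      obtain ⟨y, hy, rfl⟩ := Finset.mem_map.mp hx
      rw [Finset.mem_compl]
      intro h1
      exact Finset.mem_compl.mp (hP hy) (Finset.mem_subtype.mpr h1)
    · rw [Finset.card_map, hPc]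

theorem star_odd (hV : Fintype.card V = 2 * p + 1) (hp : 2 ≤ p) (hF : ∀ Q ∈ F, Q.card = p) {L : ℕ} {a : ℕ → Finset V}
    (hL : Odd L) (hd : ∀ i < L, Disjoint (a i) (a (i + 1))) (hcl : a L = a 0) (hc : ∀ i ≤ L, Cell p F (a i)ᶜ) :
    p * (2 * p + 1) ≤ F.card := by
  classical
  have h1 : ∑ _v : V, p * (p + 1) ≤ ∑ v : V, (F.filter fun Q => v ∉ Q).card :=
    Finset.sum_le_sum fun v _ => avg_one hV hp hF hL hd hcl hc v
  have h2 : ∑ v : V, (F.filter fun Q => v ∉ Q).card = F.card * (p + 1) := by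
    simp only [Finset.card_filter]
    rw [Finset.sum_comm]
    have h3 : ∀ Q ∈ F, ∑ v : V, (if v ∉ Q then 1 else 0) = p + 1 := by
      intro Q hQ
      rw [← Finset.card_filter]
      have h4 : (Finset.univ.filter fun v => v ∉ Q) = Qᶜ := by
        ext v; simp
      rw [h4, Finset.card_compl, hV, hF Q hQ]
      omega
    rw [Finset.sum_congr rfl h3, Finset.sum_const, smul_eq_mul]
  rw [h2, Finset.sum_const, Finset.card_univ, hV, smul_eq_mul] at h1
  have h5 : (p * (2 * p + 1)) * (p + 1) ≤ F.card * (p + 1) := by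
    calc (p * (2 * p + 1)) * (p + 1) = (2 * p + 1) * (p * (p + 1)) := by ring
      _ ≤ _ := h1
  exact Nat.le_of_mul_le_mul_right h5 (Nat.succ_pos p)

end Pool.Agent.Lib.MP_d9740f_co.MM
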