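import Pool.Agent.Lib.MP_d9740f_co.MM.U

/-! Countings along a shortest walk. -/

namespace Pool.Agent.Lib.MP_d9740f_co.MM

open Finset

variable {V : Type} [Fintype V] [DecidableEq V] {p : ℕ} {F : Finset (Finset V)} {l : ℕ} {P : ℕ → Finset V}
  {par : ℕ → Bool} {H : Finset ℕ}

theorem card_HH (h : Mn p F l P par H) {i : ℕ} (hi : i ∈ H) :
    (HH P i).card = p + 1 ∧ Cell p F (HH P i) ∧ P i ⊆ HH P i ∧ P (i + 1) ⊆ HH P i := by
  rcases h.step i (h.hH i hi) with ⟨_, he, _⟩ | ⟨hn, _⟩
  · exact ⟨he.2.2.1, he.2.2.2, subset_union_left, subset_union_right⟩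
  · exact absurd hi hn

theorem base (h : Mn p F l P par H) :
    (p + 1) * H.card ≤ (univ.filter fun S : Finset V => S.card = p ∧ ∃ i ∈ H, S ⊆ HH P i).card +
      (H.filter fun i => i + 1 ∈ H).card := by
  classical
  let T : ℕ → Finset (Finset V) := fun i =>
    (powersetCard p (HH P i)) \ (if i + 1 ∈ H then {P (i + 1)} else ∅)
  have hdis : ∀ i ∈ H, ∀ j ∈ H, i < j → Disjoint (T i) (T j) := by
    intro i hi j hj hij
    rw [Finset.disjoint_left]
    intro S hS1 hS2
    obtain ⟨s1, s2⟩ := mem_sdiff.1 hS1
    obtain ⟨s3, _⟩ := mem_sdiff.1 hS2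
    obtain ⟨k1, k2⟩ := mem_powersetCard.1 s1
    obtain ⟨k3, _⟩ := mem_powersetCard.1 s3
    obtain ⟨e1, e2⟩ := U1 h hi hj hij k2 k1 k3
    rw [if_pos (e1 ▸ hj)] at s2
    exact s2 (mem_singleton.2 e2)
  have hpd : (H : Set ℕ).PairwiseDisjoint T := by
    intro i hi j hj hij
    rcases lt_or_gt_of_ne hij with h1 | h1
    · exact hdis i hi j hj h1
    · exact (hdis j hj i hi h1).symm
  have hcardT : ∀ i ∈ H, p + 1 ≤ (T i).card + (if i + 1 ∈ H then 1 else 0) := by
    intro i hi
    have h1 : (powersetCard p (HH P i)).card = p + 1 := by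
      rw [card_powersetCard, (card_HH h hi).1]
      exact Nat.choose_succ_self_right p
    have h2 : (powersetCard p (HH P i)).card ≤
        (T i).card + (if i + 1 ∈ H then ({P (i + 1)} : Finset (Finset V)) else ∅).card := by
      have h3 := le_card_sdiff (if i + 1 ∈ H then ({P (i + 1)} : Finset (Finset V)) else ∅) (powersetCard p (HH P i))
      show _ ≤ ((powersetCard p (HH P i)) \ (if i + 1 ∈ H then {P (i + 1)} else ∅)).card + _
      omega
    rw [h1] at h2
    by_cases hc : i + 1 ∈ H
    · simp only [hc, if_true, card_singleton] at h2 ⊢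
      exact h2
    · simp only [hc, if_false, card_empty] at h2 ⊢
      exact h2
  have hsum : (p + 1) * H.card ≤ ∑ i ∈ H, (T i).card + (H.filter fun i => i + 1 ∈ H).card := by
    rw [card_filter, ← sum_add_distrib]
    calc (p + 1) * H.card = ∑ i ∈ H, (p + 1) := by rw [sum_const, smul_eq_mul, mul_comm]
      _ ≤ _ := sum_le_sum hcardT
  have hbi : (H.biUnion T).card = ∑ i ∈ H, (T i).card := card_biUnion hpd
  have hsub : H.biUnion T ⊆ univ.filter fun S : Finset V => S.card = p ∧ ∃ i ∈ H, S ⊆ HH P i := by
    intro S hS
    obtain ⟨i, hi, hS⟩ := mem_biUnion.1 hS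
    obtain ⟨k1, k2⟩ := mem_powersetCard.1 (mem_sdiff.1 hS).1
    exact mem_filter.2 ⟨mem_univ _, k2, i, hi, k1⟩
  have := card_le_card hsub
  omega

theorem card_H (h : Mn p F l P par H) : p ≤ H.card := by
  classical
  let Q : ℕ → Finset V := fun t => if par t then (P t)ᶜ else P t
  have key : ∀ t ≤ l, (Q t \ Q 0).card ≤ (H ∩ range t).card := by
    intro t
    induction t with
    | zero => intro _; simp
    | succ t ih =>
      intro ht
      have h0 := ih (by omega)
      rcases h.step t (by omega) with ⟨hH, he, hp⟩ | ⟨hH, he, hp⟩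
      · have c1 : (P t).card = p := h.hF _ he.1
        have c2 : (P (t + 1)).card = p := h.hF _ he.2.1
        have c3 := he.2.2.1
        have d1 : (P (t + 1) \ P t).card ≤ 1 := by
          have := card_union_add_card_inter (P t) (P (t + 1))
          have h5 := card_sdiff_add_card_inter (P (t + 1)) (P t)
          rw [inter_comm] at h5
          omega
        have d2 : (P t \ P (t + 1)).card ≤ 1 := by
          have := card_union_add_card_inter (P t) (P (t + 1))
          have h5 := card_sdiff_add_card_inter (P t) (P (t + 1))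
          omega
        have hr : (H ∩ range (t + 1)).card = (H ∩ range t).card + 1 := by
          have : H ∩ range (t + 1) = insert t (H ∩ range t) := by
            ext x
            simp only [mem_inter, mem_range, mem_insert]
            constructor
            · rintro ⟨h1, h2⟩
              by_cases h3 : x = t
              · exact Or.inl h3
              · exact Or.inr ⟨h1, by omega⟩
            · rintro (h1 | ⟨h1, h2⟩)
              · exact ⟨h1 ▸ hH, by omega⟩
              · exact ⟨h1, by omega⟩
          rw [this, card_insert_of_notMem (by simp)]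
        have hQ : (Q (t + 1) \ Q 0).card ≤ (Q t \ Q 0).card + 1 := by
          by_cases hb : par t = true
          · have e1 : Q (t + 1) = (P (t + 1))ᶜ := by simp only [Q, hp, hb, if_true]
            have e2 : Q t = (P t)ᶜ := by simp only [Q, hb, if_true]
            have hs : Q (t + 1) \ Q 0 ⊆ (Q t \ Q 0) ∪ (P t \ P (t + 1)) := by
              intro x hx
              rw [e1] at hx
              obtain ⟨x1, x2⟩ := mem_sdiff.1 hx
              by_cases x3 : x ∈ P t
              · exact mem_union_right _ (mem_sdiff.2 ⟨x3, mem_compl.1 x1⟩)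
              · exact mem_union_left _ (mem_sdiff.2 ⟨by rw [e2]; exact mem_compl.2 x3, x2⟩)
            have := card_le_card hs
            have := card_union_le (Q t \ Q 0) (P t \ P (t + 1))
            omega
          · have hb' : par t = false := by simpa using hb
            have e1 : Q (t + 1) = P (t + 1) := by simp [Q, hp, hb']
            have e2 : Q t = P t := by simp [Q, hb']
            have hs : Q (t + 1) \ Q 0 ⊆ (Q t \ Q 0) ∪ (P (t + 1) \ P t) := by
              intro x hx
              rw [e1] at hx
              obtain ⟨x1, x2⟩ := mem_sdiff.1 hx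
              by_cases x3 : x ∈ P t
              · exact mem_union_left _ (mem_sdiff.2 ⟨by rw [e2]; exact x3, x2⟩)
              · exact mem_union_right _ (mem_sdiff.2 ⟨x1, x3⟩)
            have := card_le_card hs
            have := card_union_le (Q t \ Q 0) (P (t + 1) \ P t)
            omega
        omega
      · have hQ : Q (t + 1) = Q t := by
          simp only [Q, hp, he]
          cases par t <;> simp
        rw [hQ]
        refine h0.trans (card_le_card ?_)
        exact inter_subset_inter_left (range_subset_range.2 (by omega))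
  have h1 := key l le_rfl
  have e1 : Q l = (P 0)ᶜ := by simp [Q, h.parl, h.last]
  have e2 : Q 0 = P 0 := by simp [Q, h.par0]
  have e3 : (P 0)ᶜ \ P 0 = (P 0)ᶜ := by
    ext x
    simp
  rw [e1, e2, e3, ← h.last, h.hF _ (h.mem l le_rfl)] at h1
  exact h1.trans (card_le_card inter_subset_left)

theorem card_T {H : Finset ℕ} (h : H.Nonempty) : (H.filter fun i => i + 1 ∈ H).card + 1 ≤ H.card := by
  have h1 : ((H.filter fun i => i + 1 ∈ H).image (· + 1)) ⊆ H.erase (H.min' h) := by
    intro x hx
    obtain ⟨i, hi, rfl⟩ := mem_image.1 hx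
    obtain ⟨i1, i2⟩ := mem_filter.1 hi
    refine mem_erase.2 ⟨?_, i2⟩
    have := H.min'_le i i1
    show i + 1 ≠ _
    omega
  have h2 := card_le_card h1
  rw [card_image_of_injective _ (add_left_injective 1), card_erase_of_mem (H.min'_mem h)] at h2
  have := card_pos.2 h
  omega

end Pool.Agent.Lib.MP_d9740f_co.MM
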