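import Pool.Agent.Lib.MP_d9740f_co.MM.Kap

/-! MP_d9740f_co. A cut walk gives a two-colouring, which is impossible. -/

namespace Pool.Agent.Lib.MP_d9740f_co.MM

open Finset

variable {V : Type} [Fintype V] [DecidableEq V] {p : ℕ} {F : Finset (Finset V)} {l : ℕ} {P : ℕ → Finset V}
  {par : ℕ → Bool} {H : Finset ℕ}

private def RR (par : ℕ → Bool) (t : ℕ) (P : ℕ → Finset V) (H : Finset ℕ) (M : Finset V) (b : Bool) : Prop :=
  (∃ j ∈ H, kap par t j = b ∧ M ⊆ HH P j) ∨ (∃ j ∈ H, kap par t j = !b ∧ Mᶜ ⊆ HH P j)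

private theorem HH_inj (h : Mn p F l P par H) {i j : ℕ} (hi : i ∈ H) (hj : j ∈ H) (he : HH P i = HH P j) : i = j := by
  have key : ∀ {i j : ℕ}, i ∈ H → j ∈ H → HH P i = HH P j → ¬ i < j := by
    intro i j hi hj he hlt
    have h1 := card_HH h hi
    have h2 := h.mem i (h.hH i hi).le
    have h3 := U1 h hi hj hlt (h.hF _ h2) h1.2.2.1 (he ▸ h1.2.2.1)
    have h4 : HH P i = P i := by
      unfold HH
      rw [← h3.2, union_self]
    have h5 := h.hF _ h2
    rw [← h4, h1.1] at h5
    omega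
  rcases lt_trichotomy i j with h1 | h1 | h1
  · exact absurd h1 (key hi hj he)
  · exact h1
  · exact absurd h1 (key hj hi he.symm)

private theorem bool_eq {a b c : Bool} (h1 : a ≠ b) (h2 : a ≠ c) : b = c := by
  cases a <;> cases b <;> cases c <;> simp_all

private theorem un_univ {M A B : Finset V} (h1 : M ⊆ A) (h2 : Mᶜ ⊆ B) : A ∪ B = univ := by
  apply eq_univ_of_forall
  intro x
  rw [mem_union]
  by_cases hx : x ∈ M
  · exact Or.inl (h1 hx)
  · exact Or.inr (h2 (mem_compl.2 hx))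

private theorem step_R (h : Mn p F l P par H) (hV : Fintype.card V = 2 * p) (hp : 2 ≤ p)
    (hall : ∀ A : Finset V, A.card = p + 1 → Cell p F A → ∃ i ∈ H, A = HH P i) {t : ℕ} (ht : t ∈ H)
    (ht1 : t + 1 ∈ H) (hnc : (P (t + 1))ᶜ ∉ F) {M M' : Finset V} (hM : Cell p F M) (hM' : Cell p F M')
    (hcov : Mᶜ ⊆ M') {b : Bool} (hR : RR par t P H M b) : RR par t P H M' (!b) := by
  have hcov' : M'ᶜ ⊆ M := by
    intro x hx
    by_contra hx'
    exact (mem_compl.1 hx) (hcov (mem_compl.2 hx'))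
  have hb1 := big h hp hall hM
  have hb2 := big h hp hall hM'
  have hcc := card_compl M
  rw [hV] at hcc
  rcases hR with ⟨j, hj, hk, hs⟩ | ⟨j, hj, hk, hs⟩
  · exact Or.inr ⟨j, hj, by rw [hk, Bool.not_not], hcov'.trans hs⟩
  · by_cases h1 : M.card = p + 1
    · obtain ⟨u, hu, hMu⟩ := hall M h1 hM
      have hd := kap_diff h hV hp ht ht1 hu hj (un_univ hMu.le hs)
      refine Or.inr ⟨u, hu, ?_, hcov'.trans hMu.le⟩
      rw [Bool.not_not]
      rw [hk] at hd
      revert hd
      cases kap par t u <;> cases b <;> simp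
    · by_cases h2 : M'.card = p + 1
      · obtain ⟨m, hm, hMm⟩ := hall M' h2 hM'
        have hj1 := (card_HH h hj).1
        rcases lt_or_ge M.card p with h3 | h3
        · have e1 : Mᶜ = HH P j := eq_of_subset_of_card_le hs (by omega)
          have e2 : Mᶜ = M' := eq_of_subset_of_card_le hcov (by omega)
          exact Or.inl ⟨j, hj, hk, by rw [← e1, e2]⟩
        · have h4 : M.card = p := by omega
          have hMF : M ∈ F := hM M subset_rfl h4
          have h5 := kap_same h hnc hm hj (S := Mᶜ) (by omega) (by rw [compl_compl]; exact hMF)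
            (hMm ▸ hcov) hs
          exact Or.inl ⟨m, hm, h5.trans hk, hMm.le⟩
      · have e2 : Mᶜ = M' := eq_of_subset_of_card_le hcov (by omega)
        exact Or.inl ⟨j, hj, hk, e2 ▸ hs⟩

private theorem uniq_R (h : Mn p F l P par H) (hV : Fintype.card V = 2 * p) (hp : 2 ≤ p)
    (hall : ∀ A : Finset V, A.card = p + 1 → Cell p F A → ∃ i ∈ H, A = HH P i) {t : ℕ} (ht : t ∈ H)
    (ht1 : t + 1 ∈ H) (hnc : (P (t + 1))ᶜ ∉ F) {M M' : Finset V} (hM : Cell p F M) (hM' : Cell p F M')
    (hcov : Mᶜ ⊆ M') {b : Bool} (hR : RR par t P H M b) (hR' : RR par t P H M (!b)) : False := by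
  have hb1 := big h hp hall hM
  have hb2 := big h hp hall hM'
  have hcc := card_compl M
  rw [hV] at hcc
  have hle := card_le_card hcov
  have hA : ∀ i ∈ H, ∀ j ∈ H, M ⊆ HH P i → M ⊆ HH P j → kap par t i = kap par t j := by
    intro i hi j hj h1 h2
    have c1 := (card_HH h hi).1
    have c2 := (card_HH h hj).1
    rcases lt_trichotomy M.card p with h3 | h3 | h3
    · have e2 : Mᶜ = M' := eq_of_subset_of_card_le hcov (by omega)
      obtain ⟨u, hu, hMu⟩ := hall M' (by rw [← e2]; omega) hM'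
      have hu' : Mᶜ ⊆ HH P u := by rw [e2, hMu]
      have d1 := kap_diff h hV hp ht ht1 hi hu (un_univ h1 hu')
      have d2 := kap_diff h hV hp ht ht1 hj hu (un_univ h2 hu')
      exact bool_eq d1.symm d2.symm
    · exact kap_same h hnc hi hj h3 (hM' _ hcov (by omega)) h1 h2
    · have e1 : M = HH P i := eq_of_subset_of_card_le h1 (by omega)
      have e2 : M = HH P j := eq_of_subset_of_card_le h2 (by omega)
      rw [HH_inj h hi hj (e1.symm.trans e2)]
  have hB : ∀ i ∈ H, ∀ j ∈ H, Mᶜ ⊆ HH P i → Mᶜ ⊆ HH P j → kap par t i = kap par t j := by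
    intro i hi j hj h1 h2
    have c1 := (card_HH h hi).1
    have c2 := (card_HH h hj).1
    rcases lt_trichotomy M.card p with h3 | h3 | h3
    · have e1 : Mᶜ = HH P i := eq_of_subset_of_card_le h1 (by omega)
      have e2 : Mᶜ = HH P j := eq_of_subset_of_card_le h2 (by omega)
      rw [HH_inj h hi hj (e1.symm.trans e2)]
    · exact kap_same h hnc hi hj (S := Mᶜ) (by omega) (by rw [compl_compl]; exact hM M subset_rfl h3) h1 h2
    · obtain ⟨u, hu, hMu⟩ := hall M (by omega) hM
      have d1 := kap_diff h hV hp ht ht1 hu hi (un_univ hMu.le h1)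
      have d2 := kap_diff h hV hp ht ht1 hu hj (un_univ hMu.le h2)
      exact bool_eq d1 d2
  rcases hR with ⟨i, hi, hki, hsi⟩ | ⟨i, hi, hki, hsi⟩ <;>
    rcases hR' with ⟨j, hj, hkj, hsj⟩ | ⟨j, hj, hkj, hsj⟩
  · have := hA i hi j hj hsi hsj
    rw [hki, hkj] at this
    cases b <;> simp at this
  · have := kap_diff h hV hp ht ht1 hi hj (un_univ hsi hsj)
    rw [hki, hkj, Bool.not_not] at this
    exact this rfl
  · have := kap_diff h hV hp ht ht1 hj hi (un_univ hsj hsi)
    rw [hki, hkj] at this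
    exact this rfl
  · have := hB i hi j hj hsi hsj
    rw [hki, hkj] at this
    cases b <;> simp at this

theorem col (h : Mn p F l P par H) (hV : Fintype.card V = 2 * p) (hp : 2 ≤ p) {L : ℕ} {a : ℕ → Finset V}
    (hL : Odd L) (hd : ∀ i < L, Disjoint (a i) (a (i + 1))) (hcl : a L = a 0) (hc : ∀ i ≤ L, Cell p F (a i)ᶜ)
    (hall : ∀ A : Finset V, A.card = p + 1 → Cell p F A → ∃ i ∈ H, A = HH P i) {t : ℕ} (ht : t ∈ H)
    (ht1 : t + 1 ∈ H) (hnc : (P (t + 1))ᶜ ∉ F) : False := by
  have hcov : ∀ i < L, ((a i)ᶜ)ᶜ ⊆ (a (i + 1))ᶜ := by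
    intro i hi
    rw [compl_compl]
    exact subset_compl_iff_disjoint_right.2 (hd i hi)
  have hL0 : 0 < L := by
    rcases hL with ⟨m, rfl⟩
    omega
  have step : ∀ i < L, ∀ b, RR par t P H (a i)ᶜ b → RR par t P H (a (i + 1))ᶜ (!b) := fun i hi b hb =>
    step_R h hV hp hall ht ht1 hnc (hc i hi.le) (hc (i + 1) hi) (hcov i hi) hb
  by_cases hex : ∃ i ≤ L, ∃ b, RR par t P H (a i)ᶜ b
  · obtain ⟨i, hi, b, hb⟩ := hex
    have h1 : ∀ k, i + k ≤ L → ∃ b', RR par t P H (a (i + k))ᶜ b' := by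
      intro k
      induction k with
      | zero => exact fun _ => ⟨b, hb⟩
      | succ k ih =>
        intro hk
        obtain ⟨b', hb'⟩ := ih (by omega)
        exact ⟨!b', step (i + k) (by omega) b' hb'⟩
    obtain ⟨b', hb'⟩ := h1 (L - i) (by omega)
    have e : i + (L - i) = L := by omega
    rw [e, hcl] at hb'
    have h2 : ∀ k ≤ L, RR par t P H (a k)ᶜ (if Even k then b' else !b') := by
      intro k
      induction k with
      | zero => exact fun _ => by simpa using hb'
      | succ k ih =>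
        intro hk
        have h3 := step k (by omega) _ (ih (by omega))
        by_cases hk2 : Even k
        · rw [if_pos hk2] at h3
          rw [if_neg (by rw [Nat.even_add_one]; exact not_not.2 hk2)]
          exact h3
        · rw [if_neg hk2, Bool.not_not] at h3
          rw [if_pos (by rw [Nat.even_add_one]; exact hk2)]
          exact h3
    have h3 := h2 L le_rfl
    rw [if_neg (Nat.not_even_iff_odd.2 hL), hcl] at h3
    exact uniq_R h hV hp hall ht ht1 hnc (hc 0 (Nat.zero_le _)) (hc 1 hL0) (hcov 0 hL0) hb' h3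
  · have hno : ∀ i ≤ L, ∀ b, ¬ RR par t P H (a i)ᶜ b := fun i hi b hb => hex ⟨i, hi, b, hb⟩
    have hne : ∀ i ≤ L, ((a i)ᶜ).card ≤ p := by
      intro i hi
      have h1 := big h hp hall (hc i hi)
      by_contra hcon
      obtain ⟨u, hu, hMu⟩ := hall _ (by omega) (hc i hi)
      exact hno i hi (kap par t u) (Or.inl ⟨u, hu, rfl, hMu.le⟩)
    have hcc : ∀ i, ((a i)ᶜ).card + (((a i)ᶜ)ᶜ).card = 2 * p := by
      intro i
      rw [card_add_card_compl, hV]
    have hst : ∀ i < L, (a (i + 1))ᶜ = ((a i)ᶜ)ᶜ := by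
      intro i hi
      have h1 := hne i hi.le
      have h2 := hne (i + 1) hi
      have h3 := hcc i
      exact (eq_of_subset_of_card_le (hcov i hi) (by omega)).symm
    have h2 : ∀ k ≤ L, (a k)ᶜ = if Even k then (a 0)ᶜ else ((a 0)ᶜ)ᶜ := by
      intro k
      induction k with
      | zero => exact fun _ => by simp
      | succ k ih =>
        intro hk
        rw [hst k (by omega), ih (by omega)]
        by_cases hk2 : Even k
        · rw [if_pos hk2, if_neg (by rw [Nat.even_add_one]; exact not_not.2 hk2)]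
        · rw [if_neg hk2, if_pos (by rw [Nat.even_add_one]; exact hk2), compl_compl]
    have h3 := h2 L le_rfl
    rw [if_neg (Nat.not_even_iff_odd.2 hL), hcl] at h3
    have h4 := hcc 0
    have hne0 : ((a 0)ᶜ).Nonempty := by
      rw [← card_pos]
      rw [← h3] at h4
      omega
    obtain ⟨x, hx⟩ := hne0
    have hx' := hx
    rw [h3, mem_compl] at hx'
    exact hx' hx

end Pool.Agent.Lib.MP_d9740f_co.MM
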