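import Mathlib
import Pool.Agent.Lib.MP_d9740f_co.Par

/-! MP_d9740f_co: subsets of small faces of the cyclic polytope are faces; sources of the complements of non-faces. -/

namespace Pool.Agent.Lib.MP_d9740f_co.MM

open Finset Pool.Agent.Lib.MP_d9740f_co

open Polynomial in
theorem isF_mono {r n : ℕ} {S S' : Finset (Fin n)} (h : IsF r S') (hS : S ⊆ S') (hc : S'.card ≤ r + 1) : IsF r S := by
  classical
  obtain ⟨a, c, h0, h1⟩ := h
  have hinj : Set.InjOn (fun i : Fin n => ((i : ℕ) : ℝ)) S' := by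
    intro i _ j _ h
    have h' : ((i : ℕ) : ℝ) = ((j : ℕ) : ℝ) := h
    exact Fin.ext (by exact_mod_cast h')
  obtain ⟨p, hp⟩ : ∃ p : ℝ[X], p = C c - ∑ j : Fin (r + 1), C (a j) * X ^ ((j : ℕ) + 1) := ⟨_, rfl⟩
  obtain ⟨q, hq⟩ : ∃ q : ℝ[X], q = Lagrange.interpolate S' (fun i : Fin n => ((i : ℕ) : ℝ))
    (fun i => if i ∈ S then 0 else 1) := ⟨_, rfl⟩
  have hpe : ∀ x : ℝ, p.eval x = c - ∑ j : Fin (r + 1), a j * x ^ ((j : ℕ) + 1) := by
    intro x
    rw [hp, eval_sub, eval_C, eval_finset_sum]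
    simp only [eval_mul, eval_C, eval_pow, eval_X]
  have hpd : p.natDegree ≤ r + 1 := by
    rw [hp]
    refine (natDegree_sub_le _ _).trans (max_le (by simp) ?_)
    refine natDegree_sum_le_of_forall_le _ _ fun j _ => ?_
    refine (natDegree_C_mul_X_pow_le _ _).trans ?_
    have := j.2
    omega
  have hqd : q.natDegree ≤ r + 1 := by
    have h2 := natDegree_le_of_degree_le (Lagrange.degree_interpolate_le
      (s := S') (v := fun i : Fin n => ((i : ℕ) : ℝ)) (fun i => if i ∈ S then (0 : ℝ) else 1) hinj)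
    rw [hq]
    omega
  have hq1 : ∀ i ∈ S', q.eval ((i : ℕ) : ℝ) = if i ∈ S then 0 else 1 := by
    intro i hi
    rw [hq]
    exact Lagrange.eval_interpolate_at_node _ hinj hi
  have hev : ∀ᶠ ε : ℝ in nhdsWithin 0 (Set.Ioi 0), ∀ i : Fin n, i ∉ S' →
      0 < p.eval ((i : ℕ) : ℝ) + ε * q.eval ((i : ℕ) : ℝ) := by
    rw [Filter.eventually_all]
    intro i
    by_cases hi : i ∈ S'
    · exact Filter.Eventually.of_forall fun _ h => absurd hi h
    · have hcont : ContinuousAt (fun ε : ℝ => p.eval ((i : ℕ) : ℝ) + ε * q.eval ((i : ℕ) : ℝ)) 0 := by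
        fun_prop
      have hpos : (0 : ℝ) < (fun ε : ℝ => p.eval ((i : ℕ) : ℝ) + ε * q.eval ((i : ℕ) : ℝ)) 0 := by
        have := h1 i hi
        simp only [zero_mul, add_zero, hpe]
        linarith
      have h2 : ∀ᶠ ε in nhds (0 : ℝ), 0 < p.eval ((i : ℕ) : ℝ) + ε * q.eval ((i : ℕ) : ℝ) :=
        hcont.eventually (lt_mem_nhds hpos)
      exact (h2.filter_mono nhdsWithin_le_nhds).mono fun ε h _ => h
  obtain ⟨ε, h2, hε⟩ := (hev.and self_mem_nhdsWithin).exists
  have hε' : 0 < ε := hε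
  refine isF_of_poly (p + C ε * q) ?_ ?_ ?_
  · refine (natDegree_add_le _ _).trans (max_le hpd ((natDegree_C_mul_le _ _).trans hqd))
  · intro i hi
    rw [eval_add, eval_mul, eval_C, hpe, h0 i (hS hi), hq1 i (hS hi), if_pos hi]
    simp
  · intro i hi
    rw [eval_add, eval_mul, eval_C]
    by_cases hi' : i ∈ S'
    · rw [hpe, h0 i hi', hq1 i hi', if_neg hi]
      linarith
    · exact h2 i hi'

private theorem triple {r : ℕ} {S : Finset (Fin (r + 4))} (hS : ¬ IsF r S) {T : Finset (Fin (r + 4))} (hT : T ⊆ Sᶜ)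
    (hc : T.card = 3) : ∃ u ∈ T, ∀ v ∈ T, v ≠ u → PT (r + 4) u v := by
  classical
  have hcc : (Tᶜ).card = r + 1 := by
    rw [Finset.card_compl, Fintype.card_fin, hc]
    omega
  have hn : ¬ IsF r Tᶜ := fun hf => hS (isF_mono hf (fun i hi => Finset.mem_compl.2 fun hiT =>
    Finset.mem_compl.1 (hT hiT) hi) hcc.le)
  have hm := mem_trans_PT hcc hn
  rw [compl_compl] at hm
  unfold trans at hm
  obtain ⟨u, -, hu⟩ := Finset.mem_biUnion.1 hm
  obtain ⟨P, hP, hPT⟩ := Finset.mem_image.1 hu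
  refine ⟨u, hPT ▸ Finset.mem_insert_self u P, fun v hv hvu => ?_⟩
  rw [← hPT] at hv
  rcases Finset.mem_insert.1 hv with h | h
  · exact absurd h hvu
  · exact (Finset.mem_filter.1 ((Finset.mem_powersetCard.1 hP).1 h)).2

theorem src {r : ℕ} {S : Finset (Fin (r + 4))} (hS : ¬ IsF r S) (h3 : 3 ≤ (Sᶜ).card) :
    ∃ u ∈ Sᶜ, ∀ v ∈ Sᶜ, v ≠ u → PT (r + 4) u v := by
  classical
  obtain ⟨t1, t2, t3⟩ := isTour_PT (r + 4)
  have hne : (Sᶜ).Nonempty := Finset.card_pos.1 (by omega)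
  obtain ⟨u, hu, hmax⟩ := Finset.exists_max_image Sᶜ (fun u => ((Sᶜ).filter fun v => PT (r + 4) u v).card) hne
  refine ⟨u, hu, fun v hv hvu => ?_⟩
  by_contra huv
  have hvu' : PT (r + 4) v u := (t3 u v (Ne.symm hvu)).resolve_left huv
  have hlt : ((Sᶜ).filter fun w => PT (r + 4) u w).card < ((Sᶜ).filter fun w => PT (r + 4) v w).card := by
    refine Finset.card_lt_card ?_
    rw [Finset.ssubset_iff_of_subset]
    · exact ⟨u, Finset.mem_filter.2 ⟨hu, hvu'⟩, fun h => t1 u (Finset.mem_filter.1 h).2⟩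
    · intro w hw
      obtain ⟨hw1, hw2⟩ := Finset.mem_filter.1 hw
      refine Finset.mem_filter.2 ⟨hw1, ?_⟩
      have hwu : w ≠ u := fun h => t1 u (h ▸ hw2)
      have hwv : w ≠ v := fun h => huv (h ▸ hw2)
      have hcard : ({u, v, w} : Finset (Fin (r + 4))).card = 3 :=
        Finset.card_eq_three.2 ⟨u, v, w, Ne.symm hvu, Ne.symm hwu, Ne.symm hwv, rfl⟩
      have hsub : ({u, v, w} : Finset (Fin (r + 4))) ⊆ Sᶜ := by
        intro x hx
        simp only [Finset.mem_insert, Finset.mem_singleton] at hx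
        rcases hx with h | h | h
        · exact h ▸ hu
        · exact h ▸ hv
        · exact h ▸ hw1
      obtain ⟨s, hs, hsv⟩ := triple hS hsub hcard
      simp only [Finset.mem_insert, Finset.mem_singleton] at hs
      rcases hs with h | h | h
      · exact absurd (h ▸ hsv v (by simp) (h ▸ hvu)) huv
      · exact h ▸ hsv w (by simp) (h ▸ hwv)
      · exact absurd (h ▸ hsv u (by simp) (h ▸ Ne.symm hwu)) (t2 u w hw2)
  exact absurd (hmax v hv) (not_le.2 hlt)

end Pool.Agent.Lib.MP_d9740f_co.MM
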