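import Pool.Agent.Lib.MP_d9740f_co.MM.Cyc2

namespace Pool.Agent.Lib.MP_d9740f_co.MM

open Finset Pool.Agent.Lib.MP_d9740f_co

private theorem cyc_bound {r p : ℕ} (hp : 3 ≤ p) (G : Finset (Finset (Fin (r + 4))))
    (hG : ∀ S ∈ G, (Sᶜ).card = p ∧ ¬ IsF r S) :
    G.card ≤ ∑ u, ((outs (PT (r + 4)) u).card).choose (p - 1) := by
  classical
  have h1 : (G.image fun S => Sᶜ).card = G.card := card_image_of_injective _ compl_injective
  rw [← h1]
  have h2 : (G.image fun S => Sᶜ) ⊆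
      univ.biUnion fun u => ((outs (PT (r + 4)) u).powersetCard (p - 1)).image (insert u) := by
    intro M hM
    obtain ⟨S, hS, rfl⟩ := mem_image.1 hM
    obtain ⟨hc, hF⟩ := hG S hS
    obtain ⟨u, hu, hv⟩ := src hF (by omega)
    rw [mem_biUnion]
    refine ⟨u, mem_univ _, mem_image.2 ⟨(Sᶜ).erase u, ?_, insert_erase hu⟩⟩
    rw [mem_powersetCard]
    refine ⟨fun v hv' => ?_, by rw [card_erase_of_mem hu, hc]⟩
    rw [mem_erase] at hv'
    rw [outs, mem_filter]
    exact ⟨mem_univ _, hv v hv'.2 hv'.1⟩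
  refine (card_le_card h2).trans (card_biUnion_le.trans (sum_le_sum fun u _ => ?_))
  exact card_image_le.trans (card_powersetCard _ _).le

theorem cyc_even {r p : ℕ} (hr : r + 4 = 2 * p) (hp : 3 ≤ p) (G : Finset (Finset (Fin (r + 4))))
    (hG : ∀ S ∈ G, S.card = p ∧ ¬ IsF r S) : G.card ≤ p * (p + 1) := by
  have hb := cyc_bound hp G (fun S hS => ⟨by
    rw [card_compl, Fintype.card_fin, (hG S hS).1]
    omega, (hG S hS).2⟩)
  obtain ⟨s, rfl⟩ : ∃ s, p = s + 1 := ⟨p - 1, by omega⟩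
  rw [Nat.add_sub_cancel] at hb
  have hsum := sum_outs (isTour_PT (r + 4))
  have hx : ∀ u, (outs (PT (r + 4)) u).card = s ∨ (outs (PT (r + 4)) u).card = s + 1 := by
    intro u
    rcases outs_PT (r + 4) u with h | h
    · left
      omega
    · right
      omega
  have hch : ∀ u, ((outs (PT (r + 4)) u).card).choose s + s * s = 1 + s * (outs (PT (r + 4)) u).card := by
    intro u
    rcases hx u with h | h
    · rw [h, Nat.choose_self]
    · rw [h, Nat.choose_succ_self_right]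
      ring
  have hs := Finset.sum_congr (rfl : (univ : Finset (Fin (r + 4))) = univ) (fun u _ => hch u)
  rw [sum_add_distrib, sum_add_distrib, sum_const, sum_const, card_univ, Fintype.card_fin, ← mul_sum,
    smul_eq_mul, smul_eq_mul, mul_one] at hs
  obtain ⟨X, hX⟩ : ∃ X, X = ∑ u, ((outs (PT (r + 4)) u).card).choose s := ⟨_, rfl⟩
  obtain ⟨Y, hY⟩ : ∃ Y, Y = ∑ u, (outs (PT (r + 4)) u).card := ⟨_, rfl⟩
  rw [← hX] at hb hs
  rw [← hY] at hs hsum
  have e : r + 4 - 1 = 2 * s + 1 := by omega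
  rw [e, hr] at hsum
  rw [hr] at hs
  nlinarith

theorem cyc_odd {r p : ℕ} (hr : r + 4 = 2 * p + 1) (hp : 3 ≤ p) (G : Finset (Finset (Fin (r + 4))))
    (hG : ∀ S ∈ G, S.card = p + 1 ∧ ¬ IsF r S) : G.card ≤ p * (2 * p + 1) := by
  have hb := cyc_bound hp G (fun S hS => ⟨by
    rw [card_compl, Fintype.card_fin, (hG S hS).1]
    omega, (hG S hS).2⟩)
  obtain ⟨s, rfl⟩ : ∃ s, p = s + 1 := ⟨p - 1, by omega⟩
  rw [Nat.add_sub_cancel] at hb
  have hsum := sum_outs (isTour_PT (r + 4))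
  have hx : ∀ u, s + 1 ≤ (outs (PT (r + 4)) u).card := by
    intro u
    rcases outs_PT (r + 4) u with h | h <;> omega
  have hall : ∀ u, (outs (PT (r + 4)) u).card = s + 1 := by
    intro u
    by_contra hne
    have hlt : s + 1 < (outs (PT (r + 4)) u).card := lt_of_le_of_ne (hx u) (Ne.symm hne)
    have h1 := Finset.sum_lt_sum (s := univ) (f := fun _ : Fin (r + 4) => s + 1)
      (fun v _ => hx v) ⟨u, mem_univ u, hlt⟩
    rw [sum_const, card_univ, Fintype.card_fin, smul_eq_mul] at h1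
    obtain ⟨Y, hY⟩ : ∃ Y, Y = ∑ u, (outs (PT (r + 4)) u).card := ⟨_, rfl⟩
    rw [← hY] at h1 hsum
    have e : r + 4 - 1 = 2 * (s + 1) := by omega
    rw [e] at hsum
    nlinarith
  have hs : ∑ u, ((outs (PT (r + 4)) u).card).choose s = (r + 4) * (s + 1) := by
    rw [sum_congr rfl (fun u _ => by rw [hall u, Nat.choose_succ_self_right] :
      ∀ u ∈ (univ : Finset (Fin (r + 4))), ((outs (PT (r + 4)) u).card).choose s = s + 1), sum_const, card_univ,
      Fintype.card_fin, smul_eq_mul]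
  rw [hs] at hb
  have h9 : (r + 4) * (s + 1) = (2 * (s + 1) + 1) * (s + 1) := congrArg (fun t => t * (s + 1)) hr
  rw [h9] at hb
  linarith

end Pool.Agent.Lib.MP_d9740f_co.MM
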