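import Mathlib
import Pool.Agent.Lib.MP_d9740f_co.Odd

/-!
MP_d9740f_co. Walks on the `p`-subsets of a set with `2 p` elements.
-/

namespace Pool.Agent.Lib.MP_d9740f_co.MM

open Finset

variable {V : Type} [Fintype V] [DecidableEq V]

/-- all `p`-subsets of `M` are in `F` -/
def Cell (p : ℕ) (F : Finset (Finset V)) (M : Finset V) : Prop := ∀ P ⊆ M, P.card = p → P ∈ F

/-- an exchange inside a cell with `p + 1` elements -/
def Ex (p : ℕ) (F : Finset (Finset V)) (P Q : Finset V) : Prop :=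
  P ∈ F ∧ Q ∈ F ∧ (P ∪ Q).card = p + 1 ∧ Cell p F (P ∪ Q)

/-- walks: exchanges, and jumps to the complement; the truth value counts the jumps modulo 2 -/
inductive Wk (p : ℕ) (F : Finset (Finset V)) : Bool → ℕ → Finset V → Finset V → Prop
  | nil {P : Finset V} : P ∈ F → Wk p F false 0 P P
  | ex {b : Bool} {m : ℕ} {P Q R : Finset V} : Wk p F b m P Q → Ex p F Q R → Wk p F b (m + 1) P R
  | jp {b : Bool} {m : ℕ} {P Q : Finset V} : Wk p F b m P Q → Qᶜ ∈ F → Wk p F (!b) (m + 1) P Qᶜ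

/-- a shortest even walk from a set to its complement; `H` is the set of the exchanges -/
structure Mn (p : ℕ) (F : Finset (Finset V)) (l : ℕ) (P : ℕ → Finset V) (par : ℕ → Bool) (H : Finset ℕ) : Prop where
  hF : ∀ Q ∈ F, Q.card = p
  hH : ∀ i ∈ H, i < l
  mem : ∀ i ≤ l, P i ∈ F
  last : P l = (P 0)ᶜ
  par0 : par 0 = false
  parl : par l = false
  step : ∀ i < l, (i ∈ H ∧ Ex p F (P i) (P (i + 1)) ∧ par (i + 1) = par i) ∨
    (i ∉ H ∧ P (i + 1) = (P i)ᶜ ∧ par (i + 1) = !par i)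
  m0 : ∀ i j m, i ≤ j → j ≤ l → Wk p F (xor (par i) (par j)) m (P i) (P j) → j ≤ i + m
  m1 : ∀ i j m, i ≤ j → j ≤ l → Wk p F (!(xor (par i) (par j))) m (P i) (P j) → l + 1 ≤ m + (j - i)

/-- the cell of the exchange `i` -/
def HH (P : ℕ → Finset V) (i : ℕ) : Finset V := P i ∪ P (i + 1)

/-- the colour of the cell of the exchange `i`, when the walk is cut after the exchange `t` -/
def kap (par : ℕ → Bool) (t i : ℕ) : Bool := xor (par i) (decide (i ≤ t))

end Pool.Agent.Lib.MP_d9740f_co.MM
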