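import Pool.Agent.Lib.MP_d9740f_co.MM.WkA

/-!
MP_d9740f_co. An odd cycle of consecutively disjoint sets whose complements are cells gives an even walk from
a set to its complement.
-/

namespace Pool.Agent.Lib.MP_d9740f_co.MM

open Finset

variable {V : Type} [Fintype V] [DecidableEq V] {p : ℕ} {F : Finset (Finset V)}

private theorem ExW_pr (b : Bool) (i : ℕ) :
    xor b (decide ((i + 1) % 2 = 1)) = !(xor b (decide (i % 2 = 1))) := by
  rcases Nat.mod_two_eq_zero_or_one i with h | h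
  · have h' : (i + 1) % 2 = 1 := by omega
    simp [h, h']
  · have h' : (i + 1) % 2 = 0 := by omega
    simp [h, h']

private theorem ExW_step (hV : Fintype.card V = 2 * p) (hF : ∀ Q ∈ F, Q.card = p) {A B : Finset V}
    (hd : Disjoint A B) (hcB : Cell p F Bᶜ) {S₀ : Finset V} {c : Bool}
    (h1 : ∀ S ⊆ Aᶜ, S.card = p → ∃ m, Wk p F c m S₀ S)
    (h2 : ∀ S ⊆ A, S.card = p → ∃ m, Wk p F (!c) m S₀ S) :
    (∀ S ⊆ Bᶜ, S.card = p → ∃ m, Wk p F (!c) m S₀ S) ∧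
      (∀ S ⊆ B, S.card = p → ∃ m, Wk p F (!(!c)) m S₀ S) := by
  have hBA : B ⊆ Aᶜ := fun x hx => mem_compl.2 fun hx' => disjoint_left.1 hd hx' hx
  have hAB : A ⊆ Bᶜ := fun x hx => mem_compl.2 fun hx' => disjoint_left.1 hd hx hx'
  refine ⟨fun S hS hSc => ?_, fun S hS hSc => ?_⟩
  · -- it suffices to reach one set
    have key : ∀ S' ⊆ Bᶜ, S'.card = p → (∃ m, Wk p F (!c) m S₀ S') → ∃ m, Wk p F (!c) m S₀ S := by
      rintro S' hS' hSc' ⟨m, hm⟩
      obtain ⟨m', hm'⟩ := cell_conn hF hcB hS' hS hSc' hSc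
      have h3 := hm.trans hm'
      rw [Bool.xor_false] at h3
      exact ⟨_, h3⟩
    by_cases hA : p ≤ A.card
    · obtain ⟨S', hS', hSc'⟩ := exists_subset_card_eq hA
      exact key S' (hS'.trans hAB) hSc' (h2 S' hS' hSc')
    · obtain ⟨S', hAS, hSB, hSc'⟩ := exists_subsuperset_card_eq hAB (not_le.1 hA).le
        (hSc ▸ card_le_card hS : p ≤ (Bᶜ).card)
      refine key S' hSB hSc' ?_
      have h4 : S'ᶜ ⊆ Aᶜ := compl_subset_compl.2 hAS
      have h5 : (S'ᶜ).card = p := by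
        rw [card_compl, hV, hSc']
        omega
      obtain ⟨m, hm⟩ := h1 _ h4 h5
      have h6 : (S'ᶜ)ᶜ ∈ F := by
        rw [compl_compl]
        exact hcB S' hSB hSc'
      have h7 := Wk.jp hm h6
      rw [compl_compl] at h7
      exact ⟨_, h7⟩
  · rw [Bool.not_not]
    exact h1 S (hS.trans hBA) hSc

private theorem ExW_all (hV : Fintype.card V = 2 * p) (hF : ∀ Q ∈ F, Q.card = p) {L : ℕ} {a : ℕ → Finset V}
    (hd : ∀ i < L, Disjoint (a i) (a (i + 1))) (hc : ∀ i ≤ L, Cell p F (a i)ᶜ)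
    {S₀ : Finset V} {b : Bool} (h1 : ∀ S ⊆ (a 0)ᶜ, S.card = p → ∃ m, Wk p F b m S₀ S)
    (h2 : ∀ S ⊆ a 0, S.card = p → ∃ m, Wk p F (!b) m S₀ S) (i : ℕ) (hi : i ≤ L) :
    (∀ S ⊆ (a i)ᶜ, S.card = p → ∃ m, Wk p F (xor b (decide (i % 2 = 1))) m S₀ S) ∧
      (∀ S ⊆ a i, S.card = p → ∃ m, Wk p F (!(xor b (decide (i % 2 = 1)))) m S₀ S) := by
  induction i with
  | zero =>
    have h0 : xor b (decide (0 % 2 = 1)) = b := by simp
    rw [h0]
    exact ⟨h1, h2⟩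
  | succ i ih =>
    obtain ⟨h3, h4⟩ := ih (by omega)
    rw [ExW_pr]
    exact ExW_step hV hF (hd i (by omega)) (hc (i + 1) hi) h3 h4

theorem exists_walk (hV : Fintype.card V = 2 * p) (hF : ∀ Q ∈ F, Q.card = p) {L : ℕ} {a : ℕ → Finset V}
    (hL : Odd L) (hd : ∀ i < L, Disjoint (a i) (a (i + 1))) (hcl : a L = a 0) (hc : ∀ i ≤ L, Cell p F (a i)ᶜ) :
    ∃ (l : ℕ) (P : Finset V), Wk p F false l P Pᶜ := by
  have hL1 : L % 2 = 1 := Nat.odd_iff.1 hL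
  have hL0 : 0 < L := by omega
  have hd0 : Disjoint (a 0) (a 1) := hd 0 hL0
  have hc0 : Cell p F (a 0)ᶜ := hc 0 (Nat.zero_le _)
  have hc1 : Cell p F (a 1)ᶜ := hc 1 hL0
  have hA1 : a 0 ⊆ (a 1)ᶜ := fun x hx => mem_compl.2 fun hx' => disjoint_left.1 hd0 hx hx'
  have hcard : (a 0)ᶜ.card = 2 * p - (a 0).card := by rw [card_compl, hV]
  have hle : (a 0).card ≤ 2 * p := by rw [← hV]; exact card_le_univ _
  by_cases h0 : (a 0).card ≤ p
  · obtain ⟨S₀, hS₀, hSc₀⟩ := exists_subset_card_eq (show p ≤ (a 0)ᶜ.card by omega)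
    have g1 : ∀ S ⊆ (a 0)ᶜ, S.card = p → ∃ m, Wk p F false m S₀ S := fun S hS hSc =>
      cell_conn hF hc0 hS₀ hS hSc₀ hSc
    have g2 : ∀ S ⊆ a 0, S.card = p → ∃ m, Wk p F (!false) m S₀ S := by
      intro S hS hSc
      have e1 : S = a 0 := eq_of_subset_of_card_le hS (by omega)
      have e0 : (a 0).card = p := by rw [← e1]; exact hSc
      have e2 : S₀ = (a 0)ᶜ := eq_of_subset_of_card_le hS₀ (by omega)
      have e3 : S₀ᶜ = S := by rw [e2, compl_compl, e1]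
      have h6 : S₀ᶜ ∈ F := by
        rw [e3]
        exact hc1 S (hS.trans hA1) hSc
      have h7 : Wk p F (!false) (0 + 1) S₀ S₀ᶜ := Wk.jp (Wk.nil (hc0 S₀ hS₀ hSc₀)) h6
      rw [e3] at h7
      exact ⟨_, h7⟩
    obtain ⟨m, hm⟩ := (ExW_all hV hF hd hc g1 g2 L le_rfl).1 S₀ (by rw [hcl]; exact hS₀) hSc₀
    have e4 : xor false (decide (L % 2 = 1)) = true := by simp [hL1]
    rw [e4] at hm
    obtain ⟨Q, l, _, hQ⟩ := rot hm
    exact ⟨l, Q, hQ⟩
  · obtain ⟨S₀, hS₀, hSc₀⟩ := exists_subset_card_eq (show p ≤ (a 0).card by omega)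
    have g1 : ∀ S ⊆ (a 0)ᶜ, S.card = p → ∃ m, Wk p F true m S₀ S := by
      intro S hS hSc
      have := card_le_card hS
      omega
    have g2 : ∀ S ⊆ a 0, S.card = p → ∃ m, Wk p F (!true) m S₀ S := fun S hS hSc =>
      cell_conn hF hc1 (hS₀.trans hA1) (hS.trans hA1) hSc₀ hSc
    obtain ⟨m, hm⟩ := (ExW_all hV hF hd hc g1 g2 L le_rfl).2 S₀ (by rw [hcl]; exact hS₀) hSc₀
    have e4 : (!(xor true (decide (L % 2 = 1)))) = true := by simp [hL1]
    rw [e4] at hm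
    obtain ⟨Q, l, _, hQ⟩ := rot hm
    exact ⟨l, Q, hQ⟩

end Pool.Agent.Lib.MP_d9740f_co.MM
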