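import Pool.Agent.Lib.MP_d9740f_co.MM.Avg
import Pool.Agent.Lib.MP_d9740f_co.MM.Cyc3
import Pool.Agent.Lib.MP_d9740f_co.TopK

/-!
# The middle-dimensional faces of the embeddable complexes with `r + 4` points
-/

namespace Pool.Agent.Lib.MP_d9740f_co.MM

open Finset Pool.Agent.Lib.MP_d9740f_co

private theorem fin_cell {n p L : ℕ} {K : Finset (Finset (Fin n))}
    (hup : ∀ A B : Finset (Fin n), A ⊆ B → NF K A → NF K B) {a : ℕ → Finset (Fin n)}
    (hodd : OddSeq (NF K) L a) : ∀ i ≤ L,
      Cell p (((univ : Finset (Fin n)).powersetCard p).filter (fun M => NF K Mᶜ)) (a i)ᶜ := by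
  intro i hi P hP hc
  rw [mem_filter, mem_powersetCard_univ]
  refine ⟨hc, hup (a i) _ (subset_compl_comm.1 hP) ?_⟩
  obtain ⟨hL, hN, -, hcl⟩ := hodd
  rcases lt_or_eq_of_le hi with h | h
  · exact hN i h
  · rw [h, hcl]
    exact hN 0 (by rcases hL with ⟨m, rfl⟩; omega)

private theorem fin_card {n p q : ℕ} (h : p + q = n) (K : Finset (Finset (Fin n))) :
    (((univ : Finset (Fin n)).powersetCard p).filter (fun M => NF K Mᶜ)).card ≤
      (((univ : Finset (Fin n)).powersetCard q).filter (NF K)).card := by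
  classical
  rw [← card_image_of_injective (((univ : Finset (Fin n)).powersetCard p).filter (fun M => NF K Mᶜ))
    compl_injective]
  refine card_le_card fun S hS => ?_
  rw [mem_image] at hS
  obtain ⟨M, hM, rfl⟩ := hS
  rw [mem_filter, mem_powersetCard_univ] at hM
  rw [mem_filter, mem_powersetCard_univ, card_compl, Fintype.card_fin, hM.1]
  exact ⟨by omega, hM.2⟩

/-- The comparison of the numbers of the missing sets with `k + 1` elements, `r + 4` points. -/
theorem missing_le_mid {r k : ℕ} (hkr : k ≤ r) (hk : 2 * k = r + 2 ∨ 2 * k = r + 3)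
    (K : Finset (Finset (Fin (r + 4))))
    (hK : ∀ σ ∈ K, ∀ τ : Finset (Fin (r + 4)), τ ⊆ σ → τ.Nonempty → τ ∈ K)
    (f : (Fin (r + 4) → ℝ) → EuclideanSpace ℝ (Fin r)) (hf : ContinuousOn f (Rz K))
    (hi : Alm K f)
    (G : Finset (Finset (Fin (r + 4)))) (hG : ∀ S ∈ G, S.card = k + 1 ∧ ¬ IsF r S) :
    G.card ≤ (((Finset.univ : Finset (Fin (r + 4))).powersetCard (k + 1)).filter (NF K)).card := by
  classical
  have hup : ∀ A B : Finset (Fin (r + 4)), A ⊆ B → NF K A → NF K B :=
    fun A B hAB hA => ⟨hA.1.mono hAB, fun hB => hA.2 (hK B hB A hAB hA.1)⟩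
  obtain ⟨L, a, hodd⟩ := exists_oddSeq (le_refl _) K f hf hi
  rcases hk with hk | hk
  · have h1 := cyc_even (r := r) (p := k + 1) (by omega) (by omega) G hG
    have h2 := star (V := Fin (r + 4)) (p := k + 1)
      (F := ((univ : Finset (Fin (r + 4))).powersetCard (k + 1)).filter (fun M => NF K Mᶜ))
      (by rw [Fintype.card_fin]; omega) (by omega)
      (fun Q hQ => by rw [mem_filter, mem_powersetCard_univ] at hQ; exact hQ.1) hodd.1 hodd.2.2.1
      hodd.2.2.2 (fin_cell hup hodd)
    have h3 := fin_card (n := r + 4) (p := k + 1) (q := k + 1) (by omega) K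
    omega
  · have h1 := cyc_odd (r := r) (p := k) (by omega) (by omega) G hG
    have h2 := star_odd (V := Fin (r + 4)) (p := k)
      (F := ((univ : Finset (Fin (r + 4))).powersetCard k).filter (fun M => NF K Mᶜ))
      (by rw [Fintype.card_fin]; omega) (by omega)
      (fun Q hQ => by rw [mem_filter, mem_powersetCard_univ] at hQ; exact hQ.1) hodd.1 hodd.2.2.1
      hodd.2.2.2 (fin_cell hup hodd)
    have h3 := fin_card (n := r + 4) (p := k) (q := k + 1) (by omega) K
    omega

/-- The comparison of the face numbers. -/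
theorem faces_le_mid {r : ℕ} (K : Finset (Finset (Fin (r + 4))))
    (hK : ∀ σ ∈ K, ∀ τ : Finset (Fin (r + 4)), τ ⊆ σ → τ.Nonempty → τ ∈ K)
    (hf : ∃ f : (Fin (r + 4) → ℝ) → EuclideanSpace ℝ (Fin r),
      ContinuousOn f (Rz K) ∧ Alm K f)
    (k : ℕ) (hkr : k ≤ r) (hk : 2 * k = r + 2 ∨ 2 * k = r + 3) :
    {σ : Finset (Fin (r + 4)) | σ ∈ K ∧ σ.card = k + 1}.ncard ≤
      {S : Finset (Fin (r + 4)) | S.card = k + 1 ∧ IsF r S}.ncard := by
  classical
  obtain ⟨f, hf, hi⟩ := hf
  have e1 : {σ : Finset (Fin (r + 4)) | σ ∈ K ∧ σ.card = k + 1} =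
      ↑(((Finset.univ : Finset (Fin (r + 4))).powersetCard (k + 1)).filter (fun S => ¬ NF K S)) := by
    ext S
    simp only [Set.mem_ofPred_eq, Finset.coe_filter, Finset.mem_powersetCard_univ]
    constructor
    · rintro ⟨h1, h2⟩
      exact ⟨h2, fun h => h.2 h1⟩
    · rintro ⟨h1, h2⟩
      refine ⟨?_, h1⟩
      by_contra h3
      exact h2 ⟨Finset.card_pos.mp (by omega), h3⟩
  have e2 : {S : Finset (Fin (r + 4)) | S.card = k + 1 ∧ IsF r S} =
      ↑(((Finset.univ : Finset (Fin (r + 4))).powersetCard (k + 1)).filter (fun S => ¬ ¬ IsF r S)) := by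
    ext S
    simp only [Set.mem_ofPred_eq, Finset.coe_filter, Finset.mem_powersetCard_univ, not_not]
  rw [e1, e2, Set.ncard_coe_finset, Set.ncard_coe_finset]
  have h1 := Finset.card_filter_add_card_filter_not
    (s := (Finset.univ : Finset (Fin (r + 4))).powersetCard (k + 1)) (NF K)
  have h2 := Finset.card_filter_add_card_filter_not
    (s := (Finset.univ : Finset (Fin (r + 4))).powersetCard (k + 1)) (fun S => ¬ IsF r S)
  have hF : ∀ S ∈ ((Finset.univ : Finset (Fin (r + 4))).powersetCard (k + 1)).filter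
      (fun S => ¬ IsF r S), S.card = k + 1 ∧ ¬ IsF r S := fun S hS => by
    rw [Finset.mem_filter, Finset.mem_powersetCard_univ] at hS
    exact hS
  have h3 := missing_le_mid hkr hk K hK f hf hi _ hF
  omega

end Pool.Agent.Lib.MP_d9740f_co.MM
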