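import Pool.Agent.Lib.MP_d9740f_co.MM.Cnt

/-! The colours of the exchanges. -/

namespace Pool.Agent.Lib.MP_d9740f_co.MM

open Finset

variable {V : Type} [Fintype V] [DecidableEq V] {p : ℕ} {F : Finset (Finset V)} {l : ℕ} {P : ℕ → Finset V}
  {par : ℕ → Bool} {H : Finset ℕ}

private theorem kp_par (h : Mn p F l P par H) {i : ℕ} (hi : i ∈ H) : par (i + 1) = par i := by
  rcases h.step i (h.hH i hi) with h3 | h3
  · exact h3.2.2
  · exact absurd hi h3.1

private theorem kp_lt (h : Mn p F l P par H) {t : ℕ} (hnc : (P (t + 1))ᶜ ∉ F) {i j : ℕ} (hi : i ∈ H) (hj : j ∈ H)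
    (hij : i < j) {S : Finset V} (hS : S.card = p) (hSc : Sᶜ ∈ F) (h1 : S ⊆ HH P i) (h2 : S ⊆ HH P j) :
    kap par t i = kap par t j := by
  obtain ⟨h3, h4⟩ := U1 h hi hj hij hS h1 h2
  subst h3
  have hit : i ≠ t := by
    intro h5
    rw [h4, h5] at hSc
    exact hnc hSc
  unfold kap
  rw [kp_par h hi]
  congr 1
  rw [decide_eq_decide]
  omega

theorem kap_same (h : Mn p F l P par H) {t : ℕ} (hnc : (P (t + 1))ᶜ ∉ F) {i j : ℕ} (hi : i ∈ H) (hj : j ∈ H)
    {S : Finset V} (hS : S.card = p) (hSc : Sᶜ ∈ F) (h1 : S ⊆ HH P i) (h2 : S ⊆ HH P j) :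
    kap par t i = kap par t j := by
  rcases lt_trichotomy i j with hij | hij | hij
  · exact kp_lt h hnc hi hj hij hS hSc h1 h2
  · rw [hij]
  · exact (kp_lt h hnc hj hi hij hS hSc h2 h1).symm

private theorem kp_diff (h : Mn p F l P par H) (hV : Fintype.card V = 2 * p) (hp : 2 ≤ p) {t : ℕ} (ht : t ∈ H)
    (ht1 : t + 1 ∈ H) {i j : ℕ} (hi : i ∈ H) (hj : j ∈ H) (hij : i ≤ j) (hU : HH P i ∪ HH P j = univ) :
    kap par t i ≠ kap par t j := by
  have ci := (card_HH h hi).1
  have cj := (card_HH h hj).1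
  have hsub : (HH P j)ᶜ ⊆ HH P i := by
    intro x hx
    have hx1 : x ∈ HH P i ∪ HH P j := by rw [hU]; exact mem_univ x
    rcases mem_union.1 hx1 with h3 | h3
    · exact h3
    · exact absurd h3 (mem_compl.1 hx)
  obtain ⟨S, hS1, hS2, hS3⟩ := Finset.exists_subsuperset_card_eq (n := p) hsub
    (by rw [card_compl, cj, hV]; omega) (by rw [ci]; omega)
  have hSc : Sᶜ ⊆ HH P j := by
    intro x hx
    by_contra hc
    exact (mem_compl.1 hx) (hS1 (mem_compl.2 hc))
  rcases U4 h hV hp hi hj hij hS3 hS2 hSc with ⟨h3, h4⟩ | ⟨h3, h4⟩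
  · subst h3
    have h5 : par (i + 1 + 1) = !par (i + 1) := by
      rcases h.step (i + 1) (by have := h.hH _ hj; omega) with h6 | h6
      · exact absurd h6.1 h4
      · exact h6.2.2
    have h7 : decide (i ≤ t) = decide (i + 2 ≤ t) := by
      rw [decide_eq_decide]
      constructor
      · intro h8
        by_contra h9
        have h10 : t = i ∨ t = i + 1 := by omega
        rcases h10 with h10 | h10
        · rw [h10] at ht1
          exact h4 ht1
        · rw [h10] at ht
          exact h4 ht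
      · intro h8
        omega
    unfold kap
    rw [← h7, show i + 2 = i + 1 + 1 from rfl, h5, kp_par h hi]
    cases par i <;> cases decide (i ≤ t) <;> simp
  · subst h3
    have h5 : par j = false := by
      rw [← kp_par h hj, h4]
      exact h.parl
    have h6 : t < j := by
      have := h.hH _ ht1
      omega
    unfold kap
    rw [h5, h.par0, decide_eq_true (Nat.zero_le t), decide_eq_false (by omega)]
    simp

theorem kap_diff (h : Mn p F l P par H) (hV : Fintype.card V = 2 * p) (hp : 2 ≤ p) {t : ℕ} (ht : t ∈ H)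
    (ht1 : t + 1 ∈ H) {i j : ℕ} (hi : i ∈ H) (hj : j ∈ H) (hU : HH P i ∪ HH P j = univ) :
    kap par t i ≠ kap par t j := by
  rcases le_total i j with hij | hij
  · exact kp_diff h hV hp ht ht1 hi hj hij hU
  · exact (kp_diff h hV hp ht ht1 hj hi hij (by rw [union_comm]; exact hU)).symm

private theorem kp_one (h : Mn p F l P par H) {i j : ℕ} (hi : i ∈ H) (hj : j ∈ H) (hij : i ≠ j)
    {S : Finset V} (hS : S.card = p) (h1 : S ⊆ HH P i) (h2 : S ⊆ HH P j) : j = i + 1 ∨ i = j + 1 := by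
  rcases lt_or_gt_of_ne hij with h3 | h3
  · exact Or.inl (U1 h hi hj h3 hS h1 h2).1
  · exact Or.inr (U1 h hj hi h3 hS h2 h1).1

theorem big (h : Mn p F l P par H) (hp : 2 ≤ p)
    (hall : ∀ A : Finset V, A.card = p + 1 → Cell p F A → ∃ i ∈ H, A = HH P i) {M : Finset V} (hM : Cell p F M) :
    M.card ≤ p + 1 := by
  by_contra hc
  obtain ⟨W, hWM, hW⟩ := Finset.exists_subset_card_eq (show p + 2 ≤ M.card by omega)
  obtain ⟨x, y, z, hx, hy, hz, hxy, hxz, hyz⟩ := Finset.two_lt_card_iff.1 (show 2 < W.card by omega)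
  have key : ∀ a ∈ W, ∃ i ∈ H, W.erase a = HH P i := by
    intro a ha
    apply hall
    · rw [card_erase_of_mem ha, hW]
      omega
    · intro S hS hSp
      exact hM S (hS.trans ((erase_subset _ _).trans hWM)) hSp
  have two : ∀ a ∈ W, ∀ b ∈ W, a ≠ b → ∀ i ∈ H, ∀ j ∈ H, W.erase a = HH P i → W.erase b = HH P j →
      j = i + 1 ∨ i = j + 1 := by
    intro a ha b hb hab i hi j hj h1 h2
    have hne : i ≠ j := by
      intro h3
      rw [h3, ← h2] at h1
      have h4 : b ∈ W.erase a := mem_erase.2 ⟨hab.symm, hb⟩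
      rw [h1] at h4
      exact (notMem_erase b W) h4
    refine kp_one h hi hj hne (S := (W.erase a).erase b) ?_ ?_ ?_
    · rw [card_erase_of_mem (mem_erase.2 ⟨hab.symm, hb⟩), card_erase_of_mem ha, hW]
      omega
    · rw [← h1]
      exact erase_subset _ _
    · rw [← h2, erase_right_comm]
      exact erase_subset _ _
  obtain ⟨i, hi, h1⟩ := key x hx
  obtain ⟨j, hj, h2⟩ := key y hy
  obtain ⟨k, hk, h3⟩ := key z hz
  have e1 := two x hx y hy hxy i hi j hj h1 h2
  have e2 := two x hx z hz hxz i hi k hk h1 h3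
  have e3 := two y hy z hz hyz j hj k hk h2 h3
  omega

end Pool.Agent.Lib.MP_d9740f_co.MM
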