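import Pool.Agent.Lib.MP_d9740f_co.MM.Cnt

namespace Pool.Agent.Lib.MP_d9740f_co.MM

open Finset

variable {V : Type} [Fintype V] [DecidableEq V] {p : ℕ} {F : Finset (Finset V)} {l : ℕ} {P : ℕ → Finset V}
  {par : ℕ → Bool} {H : Finset ℕ}

private theorem un_eq {A S S' : Finset V} (hA : A.card = p + 1) (hS : S.card = p) (hS' : S'.card = p)
    (h1 : S ⊆ A) (h2 : S' ⊆ A) (hne : S ≠ S') : A = S ∪ S' := by
  symm
  apply Finset.eq_of_subset_of_card_le (Finset.union_subset h1 h2)
  rw [hA]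
  by_contra hcon
  have h3 : (S ∪ S').card ≤ S.card := by omega
  have h4 : S = S ∪ S' := Finset.eq_of_subset_of_card_le Finset.subset_union_left h3
  have h5 : S' ⊆ S := by
    rw [h4]
    exact Finset.subset_union_right
  have h6 : S' = S := Finset.eq_of_subset_of_card_le h5 (by omega)
  exact hne h6.symm

private theorem core (h : Mn p F l P par H) {A : Finset V} (hA : A.card = p + 1) (hc : Cell p F A)
    (hne : ∀ i ∈ H, A ≠ HH P i) {i j k : ℕ} (hi : i ∈ H) (hj : j ∈ H) (hk : k ∈ H) (hij : i < j)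
    (hjk : j < k) {S T U : Finset V} (hS : S.card = p) (hT : T.card = p) (hU : U.card = p)
    (hSA : S ⊆ A) (hTA : T ⊆ A) (hUA : U ⊆ A) (hST : S ≠ T) (hTU : T ≠ U)
    (hSi : S ⊆ HH P i) (hTj : T ⊆ HH P j) (hUk : U ⊆ HH P k) : False := by
  obtain ⟨h1, -⟩ := U2 h hi hk (hij.trans hjk) hA hc hS hU hSA hSi hUA hUk
  have ej : j = i + 1 := by omega
  have ek : k = i + 2 := by omega
  subst ej ek
  obtain ⟨c1, -, c3, c4⟩ := card_HH h hj
  have hkl := h.hH _ hk
  have p1 := h.hF _ (h.mem (i + 1) (by omega))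
  have p2 := h.hF _ (h.mem (i + 2) (by omega))
  have hnot : ¬ A ⊆ HH P (i + 1) := by
    intro hsub
    exact hne _ hj (Finset.eq_of_subset_of_card_le hsub (by omega))
  obtain ⟨z, hzA, hz⟩ := Finset.not_subset.1 hnot
  have z1 : z ∈ HH P i := by
    have h2 := un_eq hA hS hT hSA hTA hST
    rw [h2] at hzA
    rcases Finset.mem_union.1 hzA with h3 | h3
    · exact hSi h3
    · exact absurd (hTj h3) hz
  have z2 : z ∈ HH P (i + 2) := by
    have h2 := un_eq hA hT hU hTA hUA hTU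
    rw [h2] at hzA
    rcases Finset.mem_union.1 hzA with h3 | h3
    · exact absurd (hTj h3) hz
    · exact hUk h3
  have hcard : (P (i + 1) ∪ P (i + 2)).card + (P (i + 1) ∩ P (i + 2)).card = p + p := by
    rw [Finset.card_union_add_card_inter, p1, p2]
  have c1' : (P (i + 1) ∪ P (i + 2)).card = p + 1 := c1
  have hz' : z ∉ P (i + 1) ∩ P (i + 2) := by
    intro h3
    exact hz (c3 (Finset.mem_inter.1 h3).1)
  have hB : (insert z (P (i + 1) ∩ P (i + 2))).card = p := by
    rw [Finset.card_insert_of_notMem hz']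
    omega
  have b1 : insert z (P (i + 1) ∩ P (i + 2)) ⊆ HH P i := by
    intro x hx
    rcases Finset.mem_insert.1 hx with h3 | h3
    · rw [h3]; exact z1
    · exact Finset.mem_union_right _ (Finset.mem_inter.1 h3).1
  have b2 : insert z (P (i + 1) ∩ P (i + 2)) ⊆ HH P (i + 2) := by
    intro x hx
    rcases Finset.mem_insert.1 hx with h3 | h3
    · rw [h3]; exact z2
    · exact Finset.mem_union_left _ (Finset.mem_inter.1 h3).2
  obtain ⟨h4, -⟩ := U1 h hi hk (by omega) hB b1 b2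
  omega

theorem out (h : Mn p F l P par H) {A : Finset V} (hA : A.card = p + 1) (hc : Cell p F A)
    (hne : ∀ i ∈ H, A ≠ HH P i) : ((A.powersetCard p).filter fun S => ∃ i ∈ H, S ⊆ HH P i).card ≤ 2 := by
  by_contra hcon
  push Not at hcon
  obtain ⟨S, hS, T, hT, U, hU, hST, hSU, hTU⟩ := Finset.two_lt_card.1 hcon
  obtain ⟨hS1, i, hi, hSi⟩ := Finset.mem_filter.1 hS
  obtain ⟨hT1, j, hj, hTj⟩ := Finset.mem_filter.1 hT
  obtain ⟨hU1, k, hk, hUk⟩ := Finset.mem_filter.1 hU
  obtain ⟨hSA, hSc⟩ := Finset.mem_powersetCard.1 hS1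
  obtain ⟨hTA, hTc⟩ := Finset.mem_powersetCard.1 hT1
  obtain ⟨hUA, hUc⟩ := Finset.mem_powersetCard.1 hU1
  have dist : ∀ {i : ℕ} {S T : Finset V}, i ∈ H → S.card = p → T.card = p → S ⊆ A → T ⊆ A → S ≠ T →
      S ⊆ HH P i → T ⊆ HH P i → False := by
    intro i S T hi hS hT hSA hTA hne' h1 h2
    have h3 := un_eq hA hS hT hSA hTA hne'
    have h4 := (card_HH h hi).1
    have h5 : A ⊆ HH P i := by
      rw [h3]
      exact Finset.union_subset h1 h2
    exact hne i hi (Finset.eq_of_subset_of_card_le h5 (by omega))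
  have nij : i ≠ j := by
    rintro rfl
    exact dist hi hSc hTc hSA hTA hST hSi hTj
  have nik : i ≠ k := by
    rintro rfl
    exact dist hi hSc hUc hSA hUA hSU hSi hUk
  have njk : j ≠ k := by
    rintro rfl
    exact dist hj hTc hUc hTA hUA hTU hTj hUk
  rcases lt_or_gt_of_ne nij with a | a
  · rcases lt_or_gt_of_ne njk with b | b
    · exact core h hA hc hne hi hj hk a b hSc hTc hUc hSA hTA hUA hST hTU hSi hTj hUk
    · rcases lt_or_gt_of_ne nik with c | c
      · exact core h hA hc hne hi hk hj c b hSc hUc hTc hSA hUA hTA hSU hTU.symm hSi hUk hTj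
      · exact core h hA hc hne hk hi hj c a hUc hSc hTc hUA hSA hTA hSU.symm hST hUk hSi hTj
  · rcases lt_or_gt_of_ne nik with c | c
    · exact core h hA hc hne hj hi hk a c hTc hSc hUc hTA hSA hUA hST.symm hSU hTj hSi hUk
    · rcases lt_or_gt_of_ne njk with b | b
      · exact core h hA hc hne hj hk hi b c hTc hUc hSc hTA hUA hSA hTU hSU.symm hTj hUk hSi
      · exact core h hA hc hne hk hj hi b a hUc hTc hSc hUA hTA hSA hTU.symm hST.symm hUk hTj hSi

end Pool.Agent.Lib.MP_d9740f_co.MM
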