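import Pool.Agent.Lib.MP_d9740f_co.MM.WkA

/-! A shortest walk as a sequence. -/

namespace Pool.Agent.Lib.MP_d9740f_co.MM

open Finset

variable {V : Type} [Fintype V] [DecidableEq V] {p : ℕ} {F : Finset (Finset V)}

private lemma wkb_seq {b : Bool} {m : ℕ} {P Q : Finset V} (h : Wk p F b m P Q) :
    ∃ (f : ℕ → Finset V) (par : ℕ → Bool) (H : Finset ℕ), f 0 = P ∧ f m = Q ∧ par 0 = false ∧
      par m = b ∧ (∀ i ∈ H, i < m) ∧ (∀ i ≤ m, f i ∈ F) ∧
      ∀ i < m, (i ∈ H ∧ Ex p F (f i) (f (i + 1)) ∧ par (i + 1) = par i) ∨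
        (i ∉ H ∧ f (i + 1) = (f i)ᶜ ∧ par (i + 1) = !par i) := by
  induction h with
  | nil hP =>
    rename_i P
    exact ⟨fun _ => P, fun _ => false, ∅, rfl, rfl, rfl, rfl, by simp, fun _ _ => hP, by simp⟩
  | ex hw hx ih =>
    rename_i b m P Q R
    obtain ⟨f, par, H, h0, hm, p0, pm, hH, hmem, hst⟩ := ih
    refine ⟨fun i => if i ≤ m then f i else R, fun i => if i ≤ m then par i else b, insert m H,
      by simp [h0], by simp, by simp [p0], by simp, ?_, ?_, ?_⟩
    · intro i hi
      rcases Finset.mem_insert.1 hi with rfl | hi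
      · omega
      · have := hH i hi
        omega
    · intro i hi
      by_cases h1 : i ≤ m
      · simpa [h1] using hmem i h1
      · simpa [h1] using hx.2.1
    · intro i hi
      rcases Nat.lt_succ_iff_lt_or_eq.1 hi with h1 | rfl
      · have h2 : i ≤ m := h1.le
        have h3 : i + 1 ≤ m := h1
        have h4 : i ≠ m := h1.ne
        simpa [h2, h3, h4] using hst i h1
      · left
        simpa [hm, pm] using hx
  | jp hw hx ih =>
    rename_i b m P Q
    obtain ⟨f, par, H, h0, hm, p0, pm, hH, hmem, hst⟩ := ih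
    refine ⟨fun i => if i ≤ m then f i else Qᶜ, fun i => if i ≤ m then par i else !b, H,
      by simp [h0], by simp, by simp [p0], by simp, ?_, ?_, ?_⟩
    · intro i hi
      have := hH i hi
      omega
    · intro i hi
      by_cases h1 : i ≤ m
      · simpa [h1] using hmem i h1
      · simpa [h1] using hx
    · intro i hi
      rcases Nat.lt_succ_iff_lt_or_eq.1 hi with h1 | rfl
      · have h2 : i ≤ m := h1.le
        have h3 : i + 1 ≤ m := h1
        simpa [h2, h3] using hst i h1
      · right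
        refine ⟨fun h => lt_irrefl _ (hH _ h), ?_, ?_⟩
        · simp [hm]
        · simp [pm]

private lemma wkb_seg {m : ℕ} {f : ℕ → Finset V} {par : ℕ → Bool} {H : Finset ℕ}
    (hmem : ∀ i ≤ m, f i ∈ F)
    (hst : ∀ i < m, (i ∈ H ∧ Ex p F (f i) (f (i + 1)) ∧ par (i + 1) = par i) ∨
        (i ∉ H ∧ f (i + 1) = (f i)ᶜ ∧ par (i + 1) = !par i)) (i : ℕ) :
    ∀ d, i + d ≤ m → Wk p F (xor (par i) (par (i + d))) d (f i) (f (i + d)) := by
  intro d
  induction d with
  | zero =>
    intro h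
    rw [Nat.add_zero, Bool.xor_self]
    exact Wk.nil (hmem i h)
  | succ d ih =>
    intro h
    have h1 := ih (by omega)
    rcases hst (i + d) (by omega) with ⟨_, h2, h3⟩ | ⟨_, h2, h3⟩
    · have h4 := Wk.ex h1 h2
      rw [← h3] at h4
      exact h4
    · have h5 : (f (i + d))ᶜ ∈ F := by
        rw [← h2]
        exact hmem _ (by omega)
      have h4 := Wk.jp h1 h5
      have h6 : (!(xor (par i) (par (i + d)))) = xor (par i) (par (i + (d + 1))) := by
        rw [← add_assoc, h3]
        cases par i <;> cases par (i + d) <;> rfl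
      rw [h6, ← h2] at h4
      exact h4

theorem exists_mn (hF : ∀ Q ∈ F, Q.card = p) (h : ∃ (l : ℕ) (P : Finset V), Wk p F false l P Pᶜ) :
    ∃ (l : ℕ) (P : ℕ → Finset V) (par : ℕ → Bool) (H : Finset ℕ), Mn p F l P par H := by
  classical
  have hmin : ∃ l : ℕ, (∃ P : Finset V, Wk p F false l P Pᶜ) ∧
      ∀ m, (∃ P : Finset V, Wk p F false m P Pᶜ) → l ≤ m :=
    ⟨Nat.find h, Nat.find_spec h, fun m hm => Nat.find_min' h hm⟩
  obtain ⟨l, ⟨P₀, hw⟩, hl⟩ := hmin
  obtain ⟨f, par, H, h0, hm, p0, pm, hH, hmem, hst⟩ := wkb_seq hw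
  have seg : ∀ i j, i ≤ j → j ≤ l → Wk p F (xor (par i) (par j)) (j - i) (f i) (f j) := by
    intro i j hij hj
    have := wkb_seg hmem hst i (j - i) (by omega)
    rwa [Nat.add_sub_cancel' hij] at this
  refine ⟨l, f, par, H, ⟨hF, hH, hmem, by rw [hm, h0], p0, pm, hst, ?_, ?_⟩⟩
  · intro i j m hij hj hwk
    have h1 := ((seg 0 i (Nat.zero_le _) (hij.trans hj)).trans hwk).trans (seg j l hj le_rfl)
    have h2 : (xor (xor (xor (par 0) (par i)) (xor (par i) (par j))) (xor (par j) (par l))) = false := by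
      rw [p0, pm]
      cases par i <;> cases par j <;> rfl
    rw [h2, hm, h0] at h1
    have := hl _ ⟨P₀, h1⟩
    omega
  · intro i j m hij hj hwk
    have h1 := hwk.trans (seg i j hij hj).symm
    have h2 : (xor (!(xor (par i) (par j))) (xor (par i) (par j))) = true := by
      cases par i <;> cases par j <;> rfl
    rw [h2] at h1
    obtain ⟨Q, l', hl', hQ⟩ := rot h1
    have := hl _ ⟨Q, hQ⟩
    omega

end Pool.Agent.Lib.MP_d9740f_co.MM
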