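import Pool.Agent.Lib.MP_d9740f_co.MM.ExW
import Pool.Agent.Lib.MP_d9740f_co.MM.WkB
import Pool.Agent.Lib.MP_d9740f_co.MM.Out
import Pool.Agent.Lib.MP_d9740f_co.MM.Col

namespace Pool.Agent.Lib.MP_d9740f_co.MM

open Finset

variable {V : Type} [Fintype V] [DecidableEq V] {p : ℕ} {F : Finset (Finset V)}

theorem star (hV : Fintype.card V = 2 * p) (hp : 2 ≤ p) (hF : ∀ Q ∈ F, Q.card = p) {L : ℕ} {a : ℕ → Finset V}
    (hL : Odd L) (hd : ∀ i < L, Disjoint (a i) (a (i + 1))) (hcl : a L = a 0) (hc : ∀ i ≤ L, Cell p F (a i)ᶜ) :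
    p * (p + 1) ≤ F.card := by
  classical
  obtain ⟨l, P, par, H, h⟩ := exists_mn hF (exists_walk hV hF hL hd hcl hc)
  have hbase := base h
  have hH := card_H h
  have hHne : H.Nonempty := card_pos.1 (by omega)
  have hT := card_T hHne
  have hBF : (univ.filter fun S : Finset V => S.card = p ∧ ∃ i ∈ H, S ⊆ HH P i) ⊆ F := by
    intro S hS
    obtain ⟨-, hS1, i, hi, hS2⟩ := mem_filter.1 hS
    exact (card_HH h hi).2.1 S hS2 hS1
  by_cases hA : ∃ A : Finset V, A.card = p + 1 ∧ Cell p F A ∧ ∀ i ∈ H, A ≠ HH P i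
  · obtain ⟨A, hA1, hA2, hA3⟩ := hA
    have h1 := out h hA1 hA2 hA3
    have h2 : (A.powersetCard p).card = p + 1 := by
      rw [card_powersetCard, hA1, Nat.choose_succ_self_right]
    have h3 := card_filter_add_card_filter_not (s := A.powersetCard p)
      (fun S => ∃ i ∈ H, S ⊆ HH P i)
    have h4 : ((univ.filter fun S : Finset V => S.card = p ∧ ∃ i ∈ H, S ⊆ HH P i) ∪
        (A.powersetCard p).filter fun S => ¬ ∃ i ∈ H, S ⊆ HH P i) ⊆ F := by
      refine union_subset hBF fun S hS => ?_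
      obtain ⟨hS1, -⟩ := mem_filter.1 hS
      obtain ⟨hS2, hS3⟩ := mem_powersetCard.1 hS1
      exact hA2 S hS2 hS3
    have h5 : Disjoint (univ.filter fun S : Finset V => S.card = p ∧ ∃ i ∈ H, S ⊆ HH P i)
        ((A.powersetCard p).filter fun S => ¬ ∃ i ∈ H, S ⊆ HH P i) := by
      rw [Finset.disjoint_left]
      intro S hS hS'
      exact (mem_filter.1 hS').2 (mem_filter.1 hS).2.2
    have h6 := card_le_card h4
    rw [card_union_of_disjoint h5] at h6
    have h7 : p * p ≤ p * H.card := Nat.mul_le_mul_left p hH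
    have h8 : (p + 1) * H.card = p * H.card + H.card := by ring
    have h9 : p * (p + 1) = p * p + p := by ring
    omega
  · push Not at hA
    have hall : ∀ A : Finset V, A.card = p + 1 → Cell p F A → ∃ i ∈ H, A = HH P i := hA
    have hcomp : ∀ t ∈ H.filter (fun i => i + 1 ∈ H), (P (t + 1))ᶜ ∈ F := by
      intro t ht
      obtain ⟨h1, h2⟩ := mem_filter.1 ht
      by_contra hnc
      exact col h hV hp hL hd hcl hc hall h1 h2 hnc
    have key : ∀ t t', t ∈ H → t' ∈ H → t + 1 ∈ H → t < t' → P (t + 1) ≠ P (t' + 1) := by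
      intro t t' ht ht' ht1 hlt he
      have h1 : (P (t + 1)).card = p := h.hF _ (h.mem _ (h.hH t ht))
      have h2 : P (t + 1) ⊆ HH P t := (card_HH h ht).2.2.2
      have h3 : P (t + 1) ⊆ HH P t' := by
        rw [he]
        exact (card_HH h ht').2.2.2
      obtain ⟨h4, -⟩ := U1 h ht ht' hlt h1 h2 h3
      subst h4
      have h5 := (card_HH h ht1).1
      unfold HH at h5
      rw [← he, union_self, h1] at h5
      omega
    have hinj : Set.InjOn (fun t => (P (t + 1))ᶜ) (H.filter (fun i => i + 1 ∈ H) : Finset ℕ) := by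
      intro t ht t' ht' he
      obtain ⟨h1, h2⟩ := mem_filter.1 (mem_coe.1 ht)
      obtain ⟨h3, h4⟩ := mem_filter.1 (mem_coe.1 ht')
      have he' : P (t + 1) = P (t' + 1) := compl_injective he
      rcases lt_trichotomy t t' with h5 | h5 | h5
      · exact absurd he' (key t t' h1 h3 h2 h5)
      · exact h5
      · exact absurd he'.symm (key t' t h3 h1 h4 h5)
    have h4 : ((univ.filter fun S : Finset V => S.card = p ∧ ∃ i ∈ H, S ⊆ HH P i) ∪
        (H.filter (fun i => i + 1 ∈ H)).image (fun t => (P (t + 1))ᶜ)) ⊆ F := by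
      refine union_subset hBF fun S hS => ?_
      obtain ⟨t, ht, rfl⟩ := mem_image.1 hS
      exact hcomp t ht
    have h5 : Disjoint (univ.filter fun S : Finset V => S.card = p ∧ ∃ i ∈ H, S ⊆ HH P i)
        ((H.filter (fun i => i + 1 ∈ H)).image (fun t => (P (t + 1))ᶜ)) := by
      rw [Finset.disjoint_left]
      intro S hS hS'
      obtain ⟨t, ht, rfl⟩ := mem_image.1 hS'
      obtain ⟨h1, h2⟩ := mem_filter.1 ht
      obtain ⟨-, -, j, hj, hS2⟩ := mem_filter.1 hS
      exact U3 h hV h1 h2 hj (hcomp t ht) hS2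
    have h6 := card_le_card h4
    rw [card_union_of_disjoint h5, card_image_of_injOn hinj] at h6
    have h7 : (p + 1) * p ≤ (p + 1) * H.card := Nat.mul_le_mul_left _ hH
    have h9 : p * (p + 1) = (p + 1) * p := by ring
    omega

end Pool.Agent.Lib.MP_d9740f_co.MM
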