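import Pool.Agent.Lib.MP_d9740f_co.MM.WkA

/-!
MP_d9740f_co. Arithmetic of lengths on a shortest walk.
-/

namespace Pool.Agent.Lib.MP_d9740f_co.MM

open Finset

variable {V : Type} [Fintype V] [DecidableEq V] {p : ℕ} {F : Finset (Finset V)} {l : ℕ} {P : ℕ → Finset V}
  {par : ℕ → Bool} {H : Finset ℕ}

private theorem U_short {M Q S : Finset V} (hM : M.card = p + 1) (hc : Cell p F M) (hQ : Q ⊆ M)
    (hQc : Q.card = p) (hS : S ⊆ M) (hSc : S.card = p) : ∃ m ≤ 1, Wk p F false m Q S := by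
  by_cases hSQ : Q = S
  · refine ⟨0, by omega, ?_⟩
    rw [← hSQ]
    exact Wk.nil (hc Q hQ hQc)
  · have h1 : Q ∪ S ⊆ M := union_subset hQ hS
    have h2 : p < (Q ∪ S).card := by
      rw [← hQc]
      apply card_lt_card
      refine ssubset_of_subset_of_ne subset_union_left fun h => hSQ ?_
      have h3 : S ⊆ Q := by
        rw [h]
        exact subset_union_right
      exact (eq_of_subset_of_card_le h3 (by omega)).symm
    have h3 : (Q ∪ S).card ≤ p + 1 := (card_le_card h1).trans hM.le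
    have h4 : Q ∪ S = M := eq_of_subset_of_card_le h1 (by omega)
    exact ⟨0 + 1, by omega, Wk.ex (Wk.nil (hc Q hQ hQc)) ⟨hc Q hQ hQc, hc S hS hSc, by rw [h4, hM], by rw [h4]; exact hc⟩⟩

private theorem U_ex (h : Mn p F l P par H) {i : ℕ} (hi : i ∈ H) :
    i < l ∧ (HH P i).card = p + 1 ∧ Cell p F (HH P i) ∧ par (i + 1) = par i ∧ (P i).card = p ∧
      (P (i + 1)).card = p ∧ P i ⊆ HH P i ∧ P (i + 1) ⊆ HH P i := by
  have h0 := h.hH i hi
  rcases h.step i h0 with ⟨-, h1, h2⟩ | ⟨h1, -, -⟩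
  · obtain ⟨a1, a2, a3, a4⟩ := h1
    exact ⟨h0, a3, a4, h2, h.hF _ a1, h.hF _ a2, subset_union_left, subset_union_right⟩
  · exact absurd hi h1

private theorem U_tr {b b' : Bool} {m m' : ℕ} {A B D : Finset V} (h1 : Wk p F b m A B)
    (h2 : Wk p F b' m' B D) {c : Bool} (hc : xor b b' = c) : Wk p F c (m + m') A D := by
  rw [← hc]
  exact h1.trans h2

theorem U1 (h : Mn p F l P par H) {i j : ℕ} (hi : i ∈ H) (hj : j ∈ H) (hij : i < j) {S : Finset V} (hS : S.card = p)
    (h1 : S ⊆ HH P i) (h2 : S ⊆ HH P j) : j = i + 1 ∧ S = P (i + 1) := by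
  obtain ⟨i0, i1, i2, i3, i4, i5, i6, i7⟩ := U_ex h hi
  obtain ⟨j0, j1, j2, j3, j4, j5, j6, j7⟩ := U_ex h hj
  obtain ⟨m1, hm1, w1⟩ := U_short i1 i2 i6 i4 h1 hS
  obtain ⟨m2, hm2, w2⟩ := U_short j1 j2 h2 hS j7 j5
  obtain ⟨m3, hm3, w3⟩ := U_short i1 i2 i7 i5 h1 hS
  obtain ⟨m4, hm4, w4⟩ := U_short j1 j2 h2 hS j6 j4
  have hji : j = i + 1 := by
    by_cases hp : par i = par (j + 1)
    · have h3 := h.m0 i (j + 1) (m1 + m2) (by omega) (by omega) (U_tr w1 w2 (by rw [hp]; simp))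
      omega
    · exfalso
      have h3 := h.m1 (i + 1) j (m3 + m4) (by omega) (by omega) (U_tr w3 w4 (by
        rw [i3, ← j3]
        revert hp
        cases par i <;> cases par (j + 1) <;> simp))
      omega
  refine ⟨hji, ?_⟩
  subst hji
  have hne : HH P i ≠ HH P (i + 1) := by
    intro he
    rw [← he] at j7
    obtain ⟨m, hm, w⟩ := U_short i1 i2 i6 i4 j7 j5
    have h3 := h.m0 i (i + 1 + 1) m (by omega) (by omega) (by
      rw [j3, i3]
      simpa using w)
    omega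
  have hcard : (HH P i ∩ HH P (i + 1)).card ≤ p := by
    by_contra hcon
    push Not at hcon
    have e1 : HH P i ∩ HH P (i + 1) = HH P i := eq_of_subset_of_card_le inter_subset_left (by omega)
    have e2 : HH P i ∩ HH P (i + 1) = HH P (i + 1) := eq_of_subset_of_card_le inter_subset_right (by omega)
    exact hne (e1.symm.trans e2)
  have e1 : S = HH P i ∩ HH P (i + 1) := eq_of_subset_of_card_le (subset_inter h1 h2) (by omega)
  have e2 : P (i + 1) = HH P i ∩ HH P (i + 1) := eq_of_subset_of_card_le (subset_inter i7 j6) (by omega)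
  rw [e1, ← e2]

theorem U2 (h : Mn p F l P par H) {i j : ℕ} (hi : i ∈ H) (hj : j ∈ H) (hij : i < j) {A S S' : Finset V}
    (hA : A.card = p + 1) (hc : Cell p F A) (hS : S.card = p) (hS' : S'.card = p) (h1 : S ⊆ A) (h2 : S ⊆ HH P i)
    (h3 : S' ⊆ A) (h4 : S' ⊆ HH P j) : j ≤ i + 2 ∧ ∀ t, i ≤ t → t ≤ j → t ∈ H := by
  obtain ⟨i0, i1, i2, i3, i4, i5, i6, i7⟩ := U_ex h hi
  obtain ⟨j0, j1, j2, j3, j4, j5, j6, j7⟩ := U_ex h hj
  obtain ⟨m0, hm0, w0⟩ := U_short hA hc h1 hS h3 hS'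
  obtain ⟨m1, hm1, w1⟩ := U_short i1 i2 i6 i4 h2 hS
  obtain ⟨m2, hm2, w2⟩ := U_short j1 j2 h4 hS' j7 j5
  obtain ⟨m3, hm3, w3⟩ := U_short i1 i2 i7 i5 h2 hS
  obtain ⟨m4, hm4, w4⟩ := U_short j1 j2 h4 hS' j6 j4
  have hp : par i = par (j + 1) := by
    by_contra hp
    have h5 := h.m1 (i + 1) j (m3 + m0 + m4) (by omega) (by omega) (U_tr (U_tr w3 w0 (c := false) rfl) w4 (by
        rw [i3, ← j3]
        revert hp
        cases par i <;> cases par (j + 1) <;> simp))
    have h6 : i = 0 := by omega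
    have h7 : j + 1 = l := by omega
    rw [h6, h7, h.par0, h.parl] at hp
    exact hp rfl
  have h5 := h.m0 i (j + 1) (m1 + m0 + m2) (by omega) (by omega)
    (U_tr (U_tr w1 w0 (c := false) rfl) w2 (by rw [hp]; simp))
  refine ⟨by omega, fun t ht1 ht2 => ?_⟩
  by_cases e1 : t = i
  · rw [e1]
    exact hi
  by_cases e2 : t = j
  · rw [e2]
    exact hj
  have e3 : t = i + 1 := by omega
  have e4 : j = i + 2 := by omega
  rw [e3]
  by_contra hcon
  rcases h.step (i + 1) (by omega) with ⟨h6, -, -⟩ | ⟨-, -, h6⟩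
  · exact hcon h6
  · rw [e4] at j3
    rw [e4, j3] at hp
    rw [show i + 1 + 1 = i + 2 by omega, i3, ← hp] at h6
    revert h6
    cases par i <;> simp

theorem U3 (h : Mn p F l P par H) (hV : Fintype.card V = 2 * p) {t j : ℕ} (h1 : t ∈ H) (h2 : t + 1 ∈ H) (hj : j ∈ H)
    (hc : (P (t + 1))ᶜ ∈ F) : ¬ (P (t + 1))ᶜ ⊆ HH P j := by
  intro hsub
  obtain ⟨t0, t1, t2, t3, t4, t5, t6, t7⟩ := U_ex h h1
  obtain ⟨s0, s1, s2, s3, s4, s5, s6, s7⟩ := U_ex h h2
  obtain ⟨j0, j1, j2, j3, j4, j5, j6, j7⟩ := U_ex h hj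
  have hTc : ((P (t + 1))ᶜ).card = p := h.hF _ hc
  have hjump : Wk p F true 1 (P (t + 1)) (P (t + 1))ᶜ := by
    have := Wk.jp (Wk.nil (p := p) (h.mem (t + 1) (by omega))) hc
    simpa using this
  obtain ⟨m1, hm1, w1⟩ := U_short j1 j2 hsub hTc j6 j4
  obtain ⟨m2, hm2, w2⟩ := U_short j1 j2 hsub hTc j7 j5
  have v1 : Wk p F true (1 + m1) (P (t + 1)) (P j) := U_tr hjump w1 rfl
  have v2 : Wk p F true (1 + m2) (P (t + 1)) (P (j + 1)) := U_tr hjump w2 rfl
  rcases Nat.lt_or_ge t j with htj | htj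
  · by_cases hp : par (t + 1) = par j
    · have h5 := h.m1 (t + 1) j (1 + m1) (by omega) (by omega) (by rw [hp]; simpa using v1)
      omega
    · have h5 := h.m0 (t + 1) (j + 1) (1 + m2) (by omega) (by omega) (by
        rw [j3]
        have : xor (par (t + 1)) (par j) = true := by
          revert hp
          cases par (t + 1) <;> cases par j <;> simp
        rw [this]
        exact v2)
      by_cases e1 : j = t + 1
      · rw [e1] at hp
        exact hp rfl
      · have e2 : j = t + 1 + 1 := by omega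
        rw [e2, s3] at hp
        exact hp rfl
  · by_cases hp : par (t + 1) = par j
    · have h5 := h.m1 (j + 1) (t + 1) (1 + m2) (by omega) (by omega) (by
        rw [j3, hp]
        simpa using v2.symm)
      omega
    · have h5 := h.m0 j (t + 1) (1 + m1) (by omega) (by omega) (by
        have : xor (par j) (par (t + 1)) = true := by
          revert hp
          cases par (t + 1) <;> cases par j <;> simp
        rw [this]
        exact v1.symm)
      by_cases e1 : t = j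
      · rw [t3, e1] at hp
        exact hp rfl
      · have e2 : t = j + 1 := by omega
        rw [t3, e2, j3] at hp
        exact hp rfl

theorem U4 (h : Mn p F l P par H) (hV : Fintype.card V = 2 * p) (hp : 2 ≤ p) {i j : ℕ} (hi : i ∈ H) (hj : j ∈ H)
    (hij : i ≤ j) {S : Finset V} (hS : S.card = p) (h1 : S ⊆ HH P i) (h2 : Sᶜ ⊆ HH P j) :
    (j = i + 2 ∧ i + 1 ∉ H) ∨ (i = 0 ∧ j + 1 = l) := by
  obtain ⟨i0, i1, i2, i3, i4, i5, i6, i7⟩ := U_ex h hi
  obtain ⟨j0, j1, j2, j3, j4, j5, j6, j7⟩ := U_ex h hj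
  have hSc : (Sᶜ).card = p := by
    rw [card_compl, hV, hS]
    omega
  have hne : i ≠ j := by
    rintro rfl
    have h3 : (univ : Finset V) ⊆ HH P i := by
      rw [← union_compl S]
      exact union_subset h1 h2
    have h4 := card_le_card h3
    rw [card_univ, hV, i1] at h4
    omega
  have hjump : Wk p F true 1 S Sᶜ := by
    have := Wk.jp (Wk.nil (p := p) (i2 S h1 hS)) (j2 _ h2 hSc)
    simpa using this
  obtain ⟨m1, hm1, w1⟩ := U_short i1 i2 i6 i4 h1 hS
  obtain ⟨m2, hm2, w2⟩ := U_short j1 j2 h2 hSc j7 j5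
  obtain ⟨m3, hm3, w3⟩ := U_short i1 i2 i7 i5 h1 hS
  obtain ⟨m4, hm4, w4⟩ := U_short j1 j2 h2 hSc j6 j4
  have v1 : Wk p F true (m1 + 1 + m2) (P i) (P (j + 1)) := U_tr (U_tr w1 hjump (c := true) rfl) w2 rfl
  have v2 : Wk p F true (m3 + 1 + m4) (P (i + 1)) (P j) := U_tr (U_tr w3 hjump (c := true) rfl) w4 rfl
  by_cases hq : par i = par (j + 1)
  · right
    have h5 := h.m1 (i + 1) j (m3 + 1 + m4) (by omega) (by omega) (by
      rw [i3, ← j3, hq]
      simpa using v2)
    omega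
  · left
    have h5 := h.m0 i (j + 1) (m1 + 1 + m2) (by omega) (by omega) (by
      have : xor (par i) (par (j + 1)) = true := by
        revert hq
        cases par i <;> cases par (j + 1) <;> simp
      rw [this]
      exact v1)
    have e1 : j ≠ i + 1 := by
      intro e
      rw [j3, e, i3] at hq
      exact hq rfl
    have e2 : j = i + 2 := by omega
    refine ⟨e2, fun h6 => ?_⟩
    obtain ⟨-, -, -, s3, -⟩ := U_ex h h6
    rw [j3, e2, show i + 2 = i + 1 + 1 by omega, s3, i3] at hq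
    exact hq rfl

end Pool.Agent.Lib.MP_d9740f_co.MM
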