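import Pool.Agent.Lib.MP_d9740f_co.MM.Defs

/-! Walks: end points, composition, inversion, rotation, connectedness of cells. -/

namespace Pool.Agent.Lib.MP_d9740f_co.MM

open Finset

variable {V : Type} [Fintype V] [DecidableEq V] {p : ℕ} {F : Finset (Finset V)}

theorem Wk.mem_left {b : Bool} {m : ℕ} {P Q : Finset V} (h : Wk p F b m P Q) : P ∈ F := by
  induction h with
  | nil h => exact h
  | ex _ _ ih => exact ih
  | jp _ _ ih => exact ih

theorem Wk.mem_right {b : Bool} {m : ℕ} {P Q : Finset V} (h : Wk p F b m P Q) : Q ∈ F := by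
  cases h with
  | nil h => exact h
  | ex _ e => exact e.2.1
  | jp _ hq => exact hq

theorem Wk.trans {b b' : Bool} {m m' : ℕ} {P Q R : Finset V} (h : Wk p F b m P Q) (h' : Wk p F b' m' Q R) :
    Wk p F (xor b b') (m + m') P R := by
  induction h' with
  | nil _ => simpa using h
  | ex _ e ih => exact (ih h).ex e
  | @jp b'' m'' _ _ _ hq ih =>
    have h1 := (ih h).jp hq
    have e1 : (!(xor b b'')) = xor b (!b'') := by cases b <;> cases b'' <;> rfl
    rw [e1] at h1
    exact h1

omit [Fintype V] in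
private theorem Ex_symm {P Q : Finset V} (h : Ex p F P Q) : Ex p F Q P := by
  obtain ⟨h1, h2, h3, h4⟩ := h
  refine ⟨h2, h1, ?_, ?_⟩
  · rw [Finset.union_comm]; exact h3
  · rw [Finset.union_comm]; exact h4

theorem Wk.symm {b : Bool} {m : ℕ} {P Q : Finset V} (h : Wk p F b m P Q) : Wk p F b m Q P := by
  induction h with
  | nil h => exact Wk.nil h
  | @ex b m P Q R h e ih =>
    have h1 : Wk p F false (0 + 1) R Q := (Wk.nil e.2.1).ex (Ex_symm e)
    have h2 := h1.trans ih
    have e1 : xor false b = b := by cases b <;> rfl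
    have e2 : 0 + 1 + m = m + 1 := by omega
    rw [e1, e2] at h2
    exact h2
  | @jp b m P Q h hq ih =>
    have hQ : Q ∈ F := h.mem_right
    have hQ' : Qᶜᶜ ∈ F := by rw [compl_compl]; exact hQ
    have h1 : Wk p F (!false) (0 + 1) Qᶜ Qᶜᶜ := (Wk.nil hq).jp hQ'
    rw [compl_compl] at h1
    have h2 := h1.trans ih
    have e1 : xor (!false) b = !b := by cases b <;> rfl
    have e2 : 0 + 1 + m = m + 1 := by omega
    rw [e1, e2] at h2
    exact h2

private theorem rot_aux {b : Bool} {m : ℕ} {P Q : Finset V} (h : Wk p F b m P Q) (hb : b = true) :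
    ∃ (R : Finset V) (m1 m2 : ℕ), m = m1 + m2 + 1 ∧ Wk p F false m1 P R ∧ Rᶜ ∈ F ∧ Wk p F false m2 Rᶜ Q := by
  induction h with
  | nil _ => exact absurd hb Bool.false_ne_true
  | @ex b m P Q R' h e ih =>
    obtain ⟨R, m1, m2, h1, h2, h3, h4⟩ := ih hb
    exact ⟨R, m1, m2 + 1, by omega, h2, h3, h4.ex e⟩
  | @jp b m P Q h hq ih =>
    have hb' : b = false := by
      cases b
      · rfl
      · exact absurd hb (by decide)
    subst hb'
    exact ⟨Q, m, 0, by omega, h, hq, Wk.nil hq⟩

theorem rot {m : ℕ} {P : Finset V} (h : Wk p F true m P P) :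
    ∃ (Q : Finset V) (l : ℕ), m = l + 1 ∧ Wk p F false l Q Qᶜ := by
  obtain ⟨R, m1, m2, h1, h2, h3, h4⟩ := rot_aux h rfl
  refine ⟨Rᶜ, m2 + m1, by omega, ?_⟩
  have h5 := h4.trans h2
  rw [compl_compl]
  exact h5

private theorem cell_aux {M S' : Finset V} (hM : Cell p F M) (hS' : S' ⊆ M)
    (h' : S'.card = p) (n : ℕ) : ∀ S : Finset V, S ⊆ M → S.card = p → (S \ S').card = n →
      ∃ m, Wk p F false m S S' := by
  induction n with
  | zero =>
    intro S hS h hn
    have h1 : S ⊆ S' := Finset.sdiff_eq_empty_iff_subset.mp (Finset.card_eq_zero.mp hn)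
    have h2 : S = S' := Finset.eq_of_subset_of_card_le h1 (by omega)
    subst h2
    exact ⟨0, Wk.nil (hM S hS h)⟩
  | succ n ih =>
    intro S hS h hn
    obtain ⟨x, hx⟩ := Finset.card_pos.mp (show 0 < (S \ S').card by omega)
    have hcard : (S' \ S).card = (S \ S').card := Finset.card_sdiff_comm (by omega)
    obtain ⟨y, hy⟩ := Finset.card_pos.mp (show 0 < (S' \ S).card by omega)
    rw [Finset.mem_sdiff] at hx hy
    have hyx : y ∉ S.erase x := fun h1 => hy.2 (Finset.mem_of_mem_erase h1)
    have hp : 0 < p := by rw [← h]; exact Finset.card_pos.mpr ⟨x, hx.1⟩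
    have hS1M : insert y (S.erase x) ⊆ M := by
      intro z hz
      rcases Finset.mem_insert.mp hz with rfl | hz
      · exact hS' hy.1
      · exact hS (Finset.mem_of_mem_erase hz)
    have hS1c : (insert y (S.erase x)).card = p := by
      rw [Finset.card_insert_of_notMem hyx, Finset.card_erase_of_mem hx.1]
      omega
    have hU : S ∪ insert y (S.erase x) = insert y S := by
      ext z
      simp only [Finset.mem_union, Finset.mem_insert, Finset.mem_erase]
      constructor
      · rintro (h1 | h1 | h1)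
        · exact Or.inr h1
        · exact Or.inl h1
        · exact Or.inr h1.2
      · rintro (h1 | h1)
        · exact Or.inr (Or.inl h1)
        · exact Or.inl h1
    have hE : Ex p F S (insert y (S.erase x)) := by
      refine ⟨hM S hS h, hM _ hS1M hS1c, ?_, ?_⟩
      · rw [hU, Finset.card_insert_of_notMem hy.2, h]
      · rw [hU]
        intro P hP hPc
        refine hM P (hP.trans ?_) hPc
        intro z hz
        rcases Finset.mem_insert.mp hz with rfl | hz
        · exact hS' hy.1
        · exact hS hz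
    have hd : (insert y (S.erase x)) \ S' = (S \ S').erase x := by
      ext z
      simp only [Finset.mem_sdiff, Finset.mem_insert, Finset.mem_erase]
      constructor
      · rintro ⟨h1 | h1, h2⟩
        · exact absurd (h1 ▸ hy.1) h2
        · exact ⟨h1.1, h1.2, h2⟩
      · rintro ⟨h1, h2, h3⟩
        exact ⟨Or.inr ⟨h1, h2⟩, h3⟩
    have hdc : ((insert y (S.erase x)) \ S').card = n := by
      rw [hd, Finset.card_erase_of_mem (Finset.mem_sdiff.mpr hx)]
      omega
    obtain ⟨m, hm⟩ := ih _ hS1M hS1c hdc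
    have h1 : Wk p F false (0 + 1) S (insert y (S.erase x)) := (Wk.nil (hM S hS h)).ex hE
    exact ⟨_, h1.trans hm⟩

theorem cell_conn (hF : ∀ Q ∈ F, Q.card = p) {M S S' : Finset V} (hM : Cell p F M) (hS : S ⊆ M) (hS' : S' ⊆ M)
    (h : S.card = p) (h' : S'.card = p) : ∃ m, Wk p F false m S S' :=
  cell_aux hM hS' h' _ S hS h rfl

end Pool.Agent.Lib.MP_d9740f_co.MM
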